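import Mathlib

/-! three circles theorem -/

set_option autoImplicit false

open Complex Filter Topology Set MeasureTheory Metric

namespace Pool.Agent.Helper85.SM

/-- Hadamard's three circles theorem -/
theorem three_circles {f : ℂ → ℂ} {r1 r2 a b : ℝ} (h1 : 0 < r1) (h12 : r1 < r2)
    (hf : ∀ z : ℂ, r1 ≤ ‖z‖ → ‖z‖ ≤ r2 → DifferentiableAt ℂ f z)
    (ha : ∀ z : ℂ, ‖z‖ = r1 → ‖f z‖ ≤ a) (hb : ∀ z : ℂ, ‖z‖ = r2 → ‖f z‖ ≤ b)
    (z : ℂ) (hz1 : r1 ≤ ‖z‖) (hz2 : ‖z‖ ≤ r2) :
    ‖f z‖ ≤ a ^ (1 - (Real.log ‖z‖ - Real.log r1) / (Real.log r2 - Real.log r1)) *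
      b ^ ((Real.log ‖z‖ - Real.log r1) / (Real.log r2 - Real.log r1)) := by
  have h2 : 0 < r2 := h1.trans h12
  have hlog : Real.log r1 < Real.log r2 := Real.log_lt_log h1 h12
  have hz0 : z ≠ 0 := by
    intro h; rw [h, norm_zero] at hz1; linarith
  have hzpos : 0 < ‖z‖ := norm_pos_iff.2 hz0
  set g : ℂ → ℂ := fun ζ => f (cexp ζ) with hg
  have hmem : ∀ ζ : ℂ, ζ ∈ Complex.HadamardThreeLines.verticalClosedStrip (Real.log r1) (Real.log r2) →
      r1 ≤ ‖cexp ζ‖ ∧ ‖cexp ζ‖ ≤ r2 := by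
    intro ζ hζ
    rw [Complex.norm_exp]
    have h3 : Real.log r1 ≤ ζ.re ∧ ζ.re ≤ Real.log r2 := hζ
    exact ⟨by rw [← Real.log_le_iff_le_exp h1]; exact h3.1,
      by rw [← Real.le_log_iff_exp_le h2]; exact h3.2⟩
  have hgd : ∀ ζ : ℂ, ζ ∈ Complex.HadamardThreeLines.verticalClosedStrip (Real.log r1) (Real.log r2) →
      DifferentiableAt ℂ g ζ := by
    intro ζ hζ
    have h3 := hmem ζ hζ
    exact (hf _ h3.1 h3.2).comp ζ Complex.differentiableAt_exp
  have hcl : closure (Complex.HadamardThreeLines.verticalStrip (Real.log r1) (Real.log r2)) ⊆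
      Complex.HadamardThreeLines.verticalClosedStrip (Real.log r1) (Real.log r2) := by
    apply closure_minimal
    · intro w hw
      exact ⟨hw.1.le, hw.2.le⟩
    · exact isClosed_Icc.preimage Complex.continuous_re
  have key := Complex.HadamardThreeLines.norm_le_interp_of_mem_verticalClosedStrip' (f := g)
    (z := Complex.log z) (a := a) (b := b) hlog ?_ ?_ ?_ ?_ ?_
  · simpa [hg, Complex.exp_log hz0, Complex.log_re] using key
  · constructor
    · rw [Complex.log_re]; exact Real.log_le_log h1 hz1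
    · rw [Complex.log_re]; exact Real.log_le_log hzpos hz2
  · constructor
    · intro w hw
      exact (hgd w (hcl (subset_closure hw))).differentiableWithinAt
    · intro w hw
      exact (hgd w (hcl hw)).continuousAt.continuousWithinAt
  · have hK : IsCompact {w : ℂ | r1 ≤ ‖w‖ ∧ ‖w‖ ≤ r2} := by
      apply Metric.isCompact_of_isClosed_isBounded
      · exact (isClosed_Ici.preimage continuous_norm).inter (isClosed_Iic.preimage continuous_norm)
      · exact (Metric.isBounded_closedBall (x := (0:ℂ)) (r := r2)).subset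
          (fun w hw => by simpa using hw.2)
    have hcont : ContinuousOn (fun w => ‖f w‖) {w : ℂ | r1 ≤ ‖w‖ ∧ ‖w‖ ≤ r2} := by
      intro w hw
      exact (hf w hw.1 hw.2).continuousAt.norm.continuousWithinAt
    obtain ⟨B, hB⟩ := hK.bddAbove_image hcont
    refine ⟨B, ?_⟩
    rintro _ ⟨ζ, hζ, rfl⟩
    exact hB ⟨cexp ζ, hmem ζ hζ, rfl⟩
  · intro ζ hζ
    apply ha
    rw [Complex.norm_exp, show ζ.re = Real.log r1 from hζ, Real.exp_log h1]
  · intro ζ hζ
    apply hb
    rw [Complex.norm_exp, show ζ.re = Real.log r2 from hζ, Real.exp_log h2]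

end Pool.Agent.Helper85.SM
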