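import Mathlib

/-! a point avoiding a summable family of intervals -/

set_option autoImplicit false

open Complex Filter Topology Set MeasureTheory Metric

namespace Pool.Agent.Helper85.SM

/-- a point of an interval avoiding a summable family of small intervals -/
theorem avoid {ι : Type} [Countable ι] (d w : ι → ℝ) (hw : Summable w) (hw0 : ∀ i, 0 ≤ w i)
    (a b : ℝ) (hab : a < b) :
    ∃ c : ℝ, 0 < c ∧ c ≤ 1 ∧ ∃ s : ℝ, a < s ∧ s < b ∧ ∀ i, c * w i ≤ |d i - s| := by
  set W := ∑' i, w i with hW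
  have hW0 : 0 ≤ W := tsum_nonneg hw0
  set c : ℝ := min 1 ((b - a) / (4 * (1 + W))) with hc
  have hpos : 0 < (b - a) / (4 * (1 + W)) := div_pos (by linarith) (by positivity)
  have hc0 : 0 < c := lt_min one_pos hpos
  have hc1 : c ≤ 1 := min_le_left _ _
  have hc2 : c ≤ (b - a) / (4 * (1 + W)) := min_le_right _ _
  refine ⟨c, hc0, hc1, ?_⟩
  by_contra hcon
  push Not at hcon
  have hsub : Ioo a b ⊆ ⋃ i, Ioo (d i - c * w i) (d i + c * w i) := by
    intro s hs
    obtain ⟨i, hi⟩ := hcon s hs.1 hs.2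
    rw [mem_iUnion]
    refine ⟨i, ?_⟩
    rw [abs_lt] at hi
    constructor <;> linarith [hi.1, hi.2]
  have h1 : volume (Ioo a b) ≤ ∑' i, ENNReal.ofReal (2 * c * w i) := by
    refine (measure_mono hsub).trans ((measure_iUnion_le _).trans ?_)
    apply ENNReal.tsum_le_tsum
    intro i
    rw [Real.volume_Ioo]
    apply ENNReal.ofReal_le_ofReal
    linarith
  rw [Real.volume_Ioo, ← ENNReal.ofReal_tsum_of_nonneg (fun i => by have := hw0 i; positivity)
    (hw.mul_left _), tsum_mul_left, ← hW] at h1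
  have h2 : 0 ≤ 2 * c * W := by positivity
  have h3 : b - a ≤ 2 * c * W := (ENNReal.ofReal_le_ofReal_iff h2).1 h1
  have h4 : c * (4 * (1 + W)) ≤ b - a := by
    rwa [le_div_iff₀ (by positivity)] at hc2
  nlinarith

end Pool.Agent.Helper85.SM
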