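import Mathlib
import Pool.Agent.Helper85.SM.Circ
import Pool.Agent.Helper85.SM.Rad

/-! Borel series: the function of the moments outside a disc -/

set_option autoImplicit false

open Complex Filter Topology Set MeasureTheory Metric

namespace Pool.Agent.Helper85.SM

/-- the generating function of a sequence, in the variable `1 / z` -/
noncomputable def gen (S : ℕ → ℂ) (z : ℂ) : ℂ := ∑' k : ℕ, S k * (z ^ (k + 1))⁻¹

theorem gen_term_le {S : ℕ → ℂ} {C r : ℝ} (hS : ∀ k, ‖S k‖ ≤ C * r ^ k) (hC : 0 ≤ C) (hr : 0 < r)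
    {r' : ℝ} (hr' : r < r') (z : ℂ) (hz : r' ≤ ‖z‖) (k : ℕ) :
    ‖S k * (z ^ (k + 1))⁻¹‖ ≤ C / r' * (r / r') ^ k := by
  have h0 : 0 < r' := hr.trans hr'
  rw [norm_mul, norm_inv, norm_pow]
  calc ‖S k‖ * (‖z‖ ^ (k + 1))⁻¹ ≤ (C * r ^ k) * (r' ^ (k + 1))⁻¹ := by
        gcongr
        exact hS k
    _ = C / r' * (r / r') ^ k := by
        rw [div_pow, pow_succ]; field_simp

theorem geom_sum {r r' : ℝ} (hr : 0 < r) (hr' : r < r') : Summable (fun k : ℕ => (r / r') ^ k) :=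
  summable_geometric_of_lt_one (by have := hr.trans hr'; positivity)
    ((div_lt_one (hr.trans hr')).2 hr')

theorem gen_diff {S : ℕ → ℂ} {C r : ℝ} (hS : ∀ k, ‖S k‖ ≤ C * r ^ k) (hC : 0 ≤ C) (hr : 0 < r)
    (z : ℂ) (hz : r < ‖z‖) : DifferentiableAt ℂ (gen S) z := by
  obtain ⟨r', h1, h2⟩ := exists_between hz
  have h0 : 0 < r' := hr.trans h1
  set U : Set ℂ := {w | r' < ‖w‖} with hU
  have hUo : IsOpen U := isOpen_lt continuous_const continuous_norm
  have hd : DifferentiableOn ℂ (gen S) U := by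
    apply differentiableOn_tsum_of_summable_norm (u := fun k => C / r' * (r / r') ^ k)
      ((geom_sum hr h1).mul_left _)
    · intro k w hw
      have hw0 : w ≠ 0 := by
        rintro rfl
        rw [hU, Set.mem_ofPred_eq, norm_zero] at hw
        linarith
      apply DifferentiableAt.differentiableWithinAt
      exact (differentiableAt_const _).mul ((differentiableAt_pow _).inv (pow_ne_zero _ hw0))
    · exact hUo
    · intro k w hw
      exact gen_term_le hS hC hr h1 w (le_of_lt hw) k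
  exact hd.differentiableAt (hUo.mem_nhds h2)

theorem gen_le {S : ℕ → ℂ} {C r : ℝ} (hS : ∀ k, ‖S k‖ ≤ C * r ^ k) (hC : 0 ≤ C) (hr : 0 < r)
    {r' : ℝ} (hr' : r < r') (z : ℂ) (hz : r' ≤ ‖z‖) :
    ‖gen S z‖ ≤ C / r' * (1 - r / r')⁻¹ := by
  have h0 : 0 < r' := hr.trans hr'
  have hg : HasSum (fun k : ℕ => C / r' * (r / r') ^ k) (C / r' * (1 - r / r')⁻¹) :=
    (hasSum_geometric_of_lt_one (by positivity) ((div_lt_one h0).2 hr')).mul_left _
  exact tsum_of_norm_bounded hg (gen_term_le hS hC hr hr' z hz)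

variable {ι : Type}

/-- the moments -/
noncomputable def mom (z A : ι → ℂ) (k : ℕ) : ℂ := ∑' i, A i * z i ^ k

theorem gen_mom {z A : ι → ℂ} {R0 : ℝ} (hA : Summable (fun i => ‖A i‖)) (hz : ∀ i, ‖z i‖ ≤ R0)
    (w : ℂ) (hw : R0 < ‖w‖) (hR0 : 0 ≤ R0) : gen (mom z A) w = ∑' i, A i * (w - z i)⁻¹ := by
  have hw0 : w ≠ 0 := by
    rintro rfl
    rw [norm_zero] at hw
    linarith
  have hwp : 0 < ‖w‖ := norm_pos_iff.2 hw0
  have hq : R0 / ‖w‖ < 1 := (div_lt_one hwp).2 hw
  have hsum : Summable (Function.uncurry (fun (k : ℕ) (i : ι) => A i * z i ^ k * (w ^ (k + 1))⁻¹)) := by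
    have h1 : Summable (fun p : ℕ × ι => ((R0 / ‖w‖) ^ p.1 / ‖w‖) * ‖A p.2‖) := by
      apply Summable.mul_of_nonneg (f := fun k : ℕ => (R0 / ‖w‖) ^ k / ‖w‖) (g := fun i => ‖A i‖)
      · exact (summable_geometric_of_lt_one (by positivity) hq).div_const _
      · exact hA
      · intro k; positivity
      · intro i; positivity
    refine Summable.of_norm_bounded h1 ?_
    rintro ⟨k, i⟩
    simp only [Function.uncurry]
    rw [norm_mul, norm_mul, norm_inv, norm_pow, norm_pow]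
    have : ‖A i‖ * ‖z i‖ ^ k * (‖w‖ ^ (k + 1))⁻¹ ≤ ‖A i‖ * R0 ^ k * (‖w‖ ^ (k + 1))⁻¹ := by
      gcongr
      exact hz i
    refine this.trans (le_of_eq ?_)
    rw [div_pow, pow_succ]; field_simp
  have h2 : gen (mom z A) w = ∑' k : ℕ, ∑' i, A i * z i ^ k * (w ^ (k + 1))⁻¹ := by
    unfold gen mom
    congr 1
    ext k
    rw [tsum_mul_right]
  rw [h2, ← hsum.tsum_comm]
  congr 1
  ext i
  have hne : w - z i ≠ 0 := by
    intro h
    rw [sub_eq_zero] at h
    rw [h] at hw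
    exact absurd (hz i) (not_le.2 hw)
  have hqi : ‖z i / w‖ < 1 := by
    rw [norm_div]
    exact lt_of_le_of_lt (div_le_div_of_nonneg_right (hz i) hwp.le) hq
  have h3 : HasSum (fun k : ℕ => A i * w⁻¹ * (z i / w) ^ k) (A i * w⁻¹ * (1 - z i / w)⁻¹) :=
    (hasSum_geometric_of_norm_lt_one hqi).mul_left _
  have h4 : (fun k : ℕ => A i * z i ^ k * (w ^ (k + 1))⁻¹) = fun k : ℕ => A i * w⁻¹ * (z i / w) ^ k := by
    ext k
    rw [div_pow, pow_succ]
    field_simp
  rw [h4, h3.tsum_eq]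
  have h5 : 1 - z i / w ≠ 0 := by
    intro h
    apply hne
    field_simp at h
    simpa using h
  field_simp

end Pool.Agent.Helper85.SM
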