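import Mathlib
import Pool.Agent.Helper85.SM.Borel1

/-! Borel series: the quasianalytic estimate on a circle -/

set_option autoImplicit false

open Complex Filter Topology Set MeasureTheory Metric

namespace Pool.Agent.Helper85.SM

variable {ι : Type}

/-- the polynomial with the given poles -/
noncomputable def PF (z : ι → ℂ) (F : Finset ι) (w : ℂ) : ℂ := ∏ i ∈ F, (w - z i)

/-- the numerator -/
noncomputable def LF [DecidableEq ι] (z A : ι → ℂ) (F : Finset ι) (w : ℂ) : ℂ :=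
  ∑ i ∈ F, A i * ∏ j ∈ F.erase i, (w - z j)

/-- the tail -/
noncomputable def eps (A : ι → ℂ) (F : Finset ι) : ℝ :=
  ∑' i, Set.indicator (↑F : Set ι)ᶜ (fun i => ‖A i‖) i

theorem eps_nonneg (A : ι → ℂ) (F : Finset ι) : 0 ≤ eps A F :=
  tsum_nonneg fun i => Set.indicator_nonneg (fun _ _ => norm_nonneg _) i

theorem PF_le (z : ι → ℂ) (F : Finset ι) (w : ℂ) (D R0 : ℝ) (hz : ∀ i, ‖z i‖ ≤ R0)
    (hD : ‖w‖ + R0 ≤ D) : ‖PF z F w‖ ≤ D ^ F.card := by
  unfold PF
  rw [norm_prod, ← Finset.prod_const]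
  apply Finset.prod_le_prod (fun i _ => norm_nonneg _)
  intro i _
  calc ‖w - z i‖ ≤ ‖w‖ + ‖z i‖ := norm_sub_le _ _
    _ ≤ D := by linarith [hz i]

theorem LF_le [DecidableEq ι] (z A : ι → ℂ) (F : Finset ι) (w : ℂ) (D R0 : ℝ) (hz : ∀ i, ‖z i‖ ≤ R0)
    (hD : ‖w‖ + R0 ≤ D) (hD1 : 1 ≤ D) (hA : Summable (fun i => ‖A i‖)) :
    ‖LF z A F w‖ ≤ (∑' i, ‖A i‖) * D ^ F.card := by
  unfold LF
  calc ‖∑ i ∈ F, A i * ∏ j ∈ F.erase i, (w - z j)‖ ≤
      ∑ i ∈ F, ‖A i * ∏ j ∈ F.erase i, (w - z j)‖ := norm_sum_le _ _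
    _ ≤ ∑ i ∈ F, ‖A i‖ * D ^ F.card := by
        apply Finset.sum_le_sum
        intro i _
        rw [norm_mul]
        gcongr
        have h1 := PF_le z (F.erase i) w D R0 hz hD
        unfold PF at h1
        refine h1.trans ?_
        exact pow_le_pow_right₀ hD1 (Finset.card_le_card (Finset.erase_subset _ _))
    _ = (∑ i ∈ F, ‖A i‖) * D ^ F.card := by rw [Finset.sum_mul]
    _ ≤ _ := by
        gcongr
        exact hA.sum_le_tsum _ (fun i _ => norm_nonneg _)

theorem LF_eq [DecidableEq ι] (z A : ι → ℂ) (F : Finset ι) (w : ℂ) (hw : ∀ i ∈ F, w ≠ z i) :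
    LF z A F w = PF z F w * ∑ i ∈ F, A i * (w - z i)⁻¹ := by
  unfold LF PF
  rw [Finset.mul_sum]
  apply Finset.sum_congr rfl
  intro i hi
  rw [← Finset.mul_prod_erase F _ hi]
  have : w - z i ≠ 0 := sub_ne_zero.2 (hw i hi)
  field_simp

/-- the quasianalytic remainder -/
noncomputable def HF [DecidableEq ι] (z A : ι → ℂ) (F : Finset ι) (w : ℂ) : ℂ :=
  PF z F w * gen (mom z A) w - LF z A F w

theorem PF_diff (z : ι → ℂ) (F : Finset ι) : Differentiable ℂ (PF z F) := by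
  unfold PF
  apply Differentiable.fun_finsetProd
  intro i _
  exact differentiable_id.sub_const _

theorem LF_diff [DecidableEq ι] (z A : ι → ℂ) (F : Finset ι) : Differentiable ℂ (LF z A F) := by
  unfold LF
  apply Differentiable.fun_sum
  intro i _
  exact (differentiable_const _).mul (PF_diff z _)

/-- outside the disc which contains all poles -/
theorem HF_far [DecidableEq ι] {z A : ι → ℂ} {R0 : ℝ} (hA : Summable (fun i => ‖A i‖))
    (hz : ∀ i, ‖z i‖ ≤ R0) (hR0 : 0 ≤ R0) (F : Finset ι) (w : ℂ) (hw : R0 + 1 ≤ ‖w‖) (D : ℝ)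
    (hD : ‖w‖ + R0 ≤ D) : ‖HF z A F w‖ ≤ D ^ F.card * eps A F := by
  have hne : ∀ i, w ≠ z i := by
    rintro i rfl
    linarith [hz i]
  have h1 : HF z A F w = PF z F w * ∑' i, Set.indicator (↑F : Set ι)ᶜ (fun i => A i * (w - z i)⁻¹) i := by
    unfold HF
    rw [LF_eq z A F w (fun i _ => hne i), gen_mom hA hz w (by linarith) hR0, ← mul_sub]
    congr 1
    have hs : Summable (fun i => A i * (w - z i)⁻¹) := by
      refine Summable.of_norm_bounded hA ?_
      intro i
      rw [norm_mul, norm_inv]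
      have : 1 ≤ ‖w - z i‖ := by
        have := norm_sub_norm_le w (z i)
        linarith [hz i]
      calc ‖A i‖ * ‖w - z i‖⁻¹ ≤ ‖A i‖ * 1 := by
            gcongr
            exact inv_le_one_of_one_le₀ this
        _ = ‖A i‖ := mul_one _
    have h2 := hs.sum_add_tsum_compl (s := F)
    rw [← h2, add_sub_cancel_left]
    exact tsum_subtype (↑F : Set ι)ᶜ (fun i => A i * (w - z i)⁻¹)
  rw [h1, norm_mul]
  apply mul_le_mul (PF_le z F w D R0 hz hD) ?_ (norm_nonneg _)
    (pow_nonneg (by have := norm_nonneg w; linarith) _)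
  unfold eps
  have hs2 : Summable (Set.indicator (↑F : Set ι)ᶜ (fun i => ‖A i‖)) := hA.indicator _
  apply tsum_of_norm_bounded hs2.hasSum
  intro i
  by_cases hi : i ∈ (↑F : Set ι)ᶜ
  · rw [Set.indicator_of_mem hi, Set.indicator_of_mem hi, norm_mul, norm_inv]
    have : 1 ≤ ‖w - z i‖ := by
      have := norm_sub_norm_le w (z i)
      linarith [hz i]
    calc ‖A i‖ * ‖w - z i‖⁻¹ ≤ ‖A i‖ * 1 := by
          gcongr
          exact inv_le_one_of_one_le₀ this
      _ = ‖A i‖ := mul_one _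
  · rw [Set.indicator_of_notMem hi, Set.indicator_of_notMem hi, norm_zero]

end Pool.Agent.Helper85.SM
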