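import Mathlib
import Pool.Agent.Helper85.SM.Borel2

/-! Borel series: uniqueness -/

set_option autoImplicit false

open Complex Filter Topology Set MeasureTheory Metric

namespace Pool.Agent.Helper85.SM

variable {ι : Type}

theorem HF_mid [DecidableEq ι] {z A : ι → ℂ} {R0 r C : ℝ} (hA : Summable (fun i => ‖A i‖))
    (hz : ∀ i, ‖z i‖ ≤ R0) (hR0 : 0 ≤ R0) (hr : 0 < r) (hC : 0 ≤ C)
    (hmom : ∀ k, ‖mom z A k‖ ≤ C * r ^ k) (r1 R1 ρ0 : ℝ) (h1 : r < r1) (h2 : r1 < ρ0)
    (h3 : ρ0 < R1) (h4 : R0 + 1 ≤ R1) :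
    ∃ M D τ : ℝ, 1 ≤ M ∧ 1 ≤ D ∧ 0 < τ ∧ ∀ F : Finset ι, eps A F ≤ 1 → ∀ w : ℂ, ρ0 ≤ ‖w‖ →
      ‖w‖ ≤ R1 → ‖HF z A F w‖ ≤ M * D ^ F.card * (eps A F) ^ τ := by
  have hr1 : 0 < r1 := hr.trans h1
  have hρ0 : 0 < ρ0 := hr1.trans h2
  have hR1 : 0 < R1 := hρ0.trans h3
  set D0 := R1 + R0 + 1 with hD0
  have hD01 : 1 ≤ D0 := by linarith
  set M0 := max 1 (C / r1 * (1 - r / r1)⁻¹ + ∑' i, ‖A i‖) with hM0
  have hM01 : 1 ≤ M0 := le_max_left _ _
  have hl1 : Real.log r1 < Real.log ρ0 := Real.log_lt_log hr1 h2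
  have hl2 : Real.log ρ0 < Real.log R1 := Real.log_lt_log hρ0 h3
  set τ := (Real.log ρ0 - Real.log r1) / (Real.log R1 - Real.log r1) with hτ
  have hτ0 : 0 < τ := div_pos (by linarith) (by linarith)
  refine ⟨M0, D0 ^ 2, τ, hM01, one_le_pow₀ hD01, hτ0, ?_⟩
  intro F hF w hw1 hw2
  set n := F.card with hn
  have hdiff : ∀ z' : ℂ, r1 ≤ ‖z'‖ → ‖z'‖ ≤ R1 → DifferentiableAt ℂ (HF z A F) z' := by
    intro z' h5 _
    exact ((PF_diff z F z').mul (gen_diff hmom hC hr z' (by linarith))).sub (LF_diff z A F z')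
  have hin : ∀ z' : ℂ, ‖z'‖ = r1 → ‖HF z A F z'‖ ≤ M0 * D0 ^ n := by
    intro z' h5
    have e1 := PF_le z F z' D0 R0 hz (by rw [h5]; linarith)
    have e2 := LF_le z A F z' D0 R0 hz (by rw [h5]; linarith) hD01 hA
    have e3 := gen_le hmom hC hr h1 z' (le_of_eq h5.symm)
    calc ‖HF z A F z'‖ ≤ ‖PF z F z' * gen (mom z A) z'‖ + ‖LF z A F z'‖ := norm_sub_le _ _
      _ ≤ D0 ^ n * (C / r1 * (1 - r / r1)⁻¹) + (∑' i, ‖A i‖) * D0 ^ n := by
          rw [norm_mul]
          gcongr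
      _ = (C / r1 * (1 - r / r1)⁻¹ + ∑' i, ‖A i‖) * D0 ^ n := by ring
      _ ≤ M0 * D0 ^ n := by gcongr; exact le_max_right _ _
  have hout : ∀ z' : ℂ, ‖z'‖ = R1 → ‖HF z A F z'‖ ≤ D0 ^ n * eps A F := by
    intro z' h5
    exact HF_far hA hz hR0 F z' (by rw [h5]; exact h4) D0 (by rw [h5]; linarith)
  have key := three_circles hr1 (h2.trans h3) hdiff hin hout w (by linarith) hw2
  set t := (Real.log ‖w‖ - Real.log r1) / (Real.log R1 - Real.log r1) with ht
  have hwpos : 0 < ‖w‖ := by linarith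
  have ht1 : τ ≤ t := by
    rw [hτ, ht]
    have : Real.log ρ0 ≤ Real.log ‖w‖ := Real.log_le_log hρ0 hw1
    gcongr
    linarith
  have ht2 : t ≤ 1 := by
    rw [ht, div_le_one (by linarith)]
    have : Real.log ‖w‖ ≤ Real.log R1 := Real.log_le_log hwpos hw2
    linarith
  have ht0 : 0 ≤ t := hτ0.le.trans ht1
  have hε := eps_nonneg A F
  have hDn : 1 ≤ D0 ^ n := one_le_pow₀ hD01
  have hMD : 1 ≤ M0 * D0 ^ n := by nlinarith
  have k1 : (M0 * D0 ^ n) ^ (1 - t) ≤ M0 * D0 ^ n := by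
    calc (M0 * D0 ^ n) ^ (1 - t) ≤ (M0 * D0 ^ n) ^ (1 : ℝ) :=
          Real.rpow_le_rpow_of_exponent_le hMD (by linarith)
      _ = _ := Real.rpow_one _
  have k2 : (D0 ^ n * eps A F) ^ t ≤ D0 ^ n * (eps A F) ^ τ := by
    rw [Real.mul_rpow (by positivity) hε]
    have k3 : (D0 ^ n) ^ t ≤ D0 ^ n := by
      calc (D0 ^ n) ^ t ≤ (D0 ^ n) ^ (1 : ℝ) := Real.rpow_le_rpow_of_exponent_le hDn ht2
        _ = _ := Real.rpow_one _
    have k4 : (eps A F) ^ t ≤ (eps A F) ^ τ :=
      Real.rpow_le_rpow_of_exponent_ge' hε hF hτ0.le ht1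
    gcongr
  calc ‖HF z A F w‖ ≤ (M0 * D0 ^ n) ^ (1 - t) * (D0 ^ n * eps A F) ^ t := key
    _ ≤ (M0 * D0 ^ n) * (D0 ^ n * (eps A F) ^ τ) := by gcongr
    _ = M0 * (D0 ^ n * D0 ^ n) * (eps A F) ^ τ := by ring
    _ = M0 * (D0 ^ 2) ^ n * (eps A F) ^ τ := by rw [← pow_mul, mul_comm 2 n, pow_mul, pow_two]

/-- the condition of quasianalytic decay -/
def Quasi (A : ι → ℂ) (lam : ι → ℝ) (F : ℕ → Finset ι) : Prop :=
  ∀ D τ : ℝ, 1 ≤ D → 0 < τ →
    Tendsto (fun m => D ^ (F m).card * (∏ i ∈ F m, lam i) * (eps A (F m)) ^ τ) atTop (𝓝 0)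

theorem eps_tendsto {A : ι → ℂ} {lam : ι → ℝ} {F : ℕ → Finset ι} (hlam : ∀ i, 1 ≤ lam i)
    (hq : Quasi A lam F) : Tendsto (fun m => eps A (F m)) atTop (𝓝 0) := by
  refine squeeze_zero (fun m => eps_nonneg _ _) (fun m => ?_) (hq 1 1 le_rfl one_pos)
  rw [one_pow, one_mul, Real.rpow_one]
  have h1 : 1 ≤ ∏ i ∈ F m, lam i := by
    calc (1:ℝ) = ∏ i ∈ F m, (1:ℝ) := by simp
      _ ≤ ∏ i ∈ F m, lam i := Finset.prod_le_prod (fun _ _ => zero_le_one) (fun i _ => hlam i)
  nlinarith [eps_nonneg A (F m)]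

theorem circ_inv_out {p q : ℂ} {s : ℝ} (hs : 0 < s) (h : s < ‖q - p‖) :
    (∮ w in C(p, s), (w - q)⁻¹) = 0 := by
  apply Complex.circleIntegral_eq_zero_of_differentiable_on_off_countable hs.le countable_empty
  · apply ContinuousOn.inv₀ (by fun_prop)
    intro w hw h0
    rw [sub_eq_zero] at h0
    rw [mem_closedBall, dist_eq_norm, h0] at hw
    linarith
  · intro w hw
    have hw' := hw.1
    rw [mem_ball, dist_eq_norm] at hw'
    apply DifferentiableAt.inv (by fun_prop)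
    intro h0
    rw [sub_eq_zero] at h0
    rw [h0] at hw'
    linarith

theorem circle_small [Countable ι] [DecidableEq ι] {z A : ι → ℂ} {lam : ι → ℝ} {R0 r C : ℝ}
    (hA : Summable (fun i => ‖A i‖)) (hlam : ∀ i, 1 ≤ lam i) (hls : Summable (fun i => (lam i)⁻¹))
    (hz : ∀ i, ‖z i‖ ≤ R0) (hR0 : 0 ≤ R0) (F : ℕ → Finset ι) (hq : Quasi A lam F) (hr : 0 < r)
    (hmom : ∀ k, ‖mom z A k‖ ≤ C * r ^ k) (p : ℂ) (hp : r < ‖p‖) (s0 : ℝ) (hs0 : 0 < s0) :
    ∃ s : ℝ, 0 < s ∧ s < s0 ∧ ∑' i, Set.indicator {i | ‖z i - p‖ < s} A i = 0 := by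
  have hC : 0 ≤ C := by
    have := (norm_nonneg _).trans (hmom 0)
    simpa using this
  set g := ‖p‖ - r with hg
  have hg0 : 0 < g := by linarith
  set s1 := min s0 (g / 2) with hs1
  have hs10 : 0 < s1 := lt_min hs0 (by linarith)
  obtain ⟨c, hc0, hc1, s, hsa, hsb, hs⟩ := avoid (fun i => ‖z i - p‖) (fun i => (lam i)⁻¹) hls
    (fun i => inv_nonneg.2 (by linarith [hlam i])) (s1 / 2) s1 (by linarith)
  have hspos : 0 < s := by linarith
  have hsg : s < g / 2 := lt_of_lt_of_le hsb (min_le_right _ _)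
  refine ⟨s, hspos, lt_of_lt_of_le hsb (min_le_left _ _), ?_⟩
  obtain ⟨M, D, τ, hM, hD, hτ, hmid⟩ := HF_mid hA hz hR0 hr hC hmom (r + g / 4)
    (R0 + ‖p‖ + g + 1) (r + g / 2) (by linarith) (by linarith) (by linarith [norm_nonneg p])
    (by linarith [norm_nonneg p])
  -- points of the circle
  have hcirc : ∀ w ∈ sphere p s, ‖w - p‖ = s := fun w hw => by
    rw [mem_sphere, dist_eq_norm] at hw; exact hw
  have hdist : ∀ w ∈ sphere p s, ∀ i, c * (lam i)⁻¹ ≤ ‖w - z i‖ := by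
    intro w hw i
    refine (hs i).trans ?_
    have h1 := abs_norm_sub_norm_le (z i - p) (w - p)
    rw [hcirc w hw, sub_sub_sub_cancel_right, norm_sub_rev (z i) w] at h1
    exact h1
  have hlampos : ∀ i, 0 < lam i := fun i => by linarith [hlam i]
  have hne : ∀ w ∈ sphere p s, ∀ i, w ≠ z i := by
    intro w hw i h
    have h1 := hdist w hw i
    rw [h, sub_self, norm_zero] at h1
    have : 0 < c * (lam i)⁻¹ := mul_pos hc0 (inv_pos.2 (hlampos i))
    linarith
  set Q : ℕ → ℂ → ℂ := fun m w => ∑ i ∈ F m, A i * (w - z i)⁻¹ with hQ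
  -- the approximation on the circle
  have happ : ∀ m, eps A (F m) ≤ 1 → ∀ w ∈ sphere p s, ‖gen (mom z A) w - Q m w‖ ≤
      M * ((D / c) ^ (F m).card * (∏ i ∈ F m, lam i) * (eps A (F m)) ^ τ) := by
    intro m hm w hw
    have hPne : PF z (F m) w ≠ 0 := by
      unfold PF
      exact Finset.prod_ne_zero_iff.2 fun i _ => sub_ne_zero.2 (hne w hw i)
    have e1 : gen (mom z A) w - Q m w = HF z A (F m) w / PF z (F m) w := by
      unfold HF
      rw [LF_eq z A (F m) w (fun i _ => hne w hw i)]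
      field_simp
      rfl
    have hwn1 : r + g / 2 ≤ ‖w‖ := by
      have h1 := norm_sub_norm_le p w
      rw [norm_sub_rev, hcirc w hw] at h1
      linarith
    have hwn2 : ‖w‖ ≤ R0 + ‖p‖ + g + 1 := by
      have h1 : ‖w‖ ≤ ‖p‖ + ‖w - p‖ := by
        calc ‖w‖ = ‖p + (w - p)‖ := by congr 1; ring
          _ ≤ _ := norm_add_le _ _
      rw [hcirc w hw] at h1
      linarith
    have e2 := hmid (F m) hm w hwn1 hwn2
    have e3 : c ^ (F m).card * (∏ i ∈ F m, lam i)⁻¹ ≤ ‖PF z (F m) w‖ := by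
      unfold PF
      rw [norm_prod, ← Finset.prod_const, ← Finset.prod_inv_distrib, ← Finset.prod_mul_distrib]
      apply Finset.prod_le_prod
      · intro i _
        exact mul_nonneg hc0.le (inv_nonneg.2 (hlampos i).le)
      · intro i _
        exact hdist w hw i
    have hprod : 0 < ∏ i ∈ F m, lam i := Finset.prod_pos fun i _ => hlampos i
    have e4 : 0 < c ^ (F m).card * (∏ i ∈ F m, lam i)⁻¹ := by positivity
    rw [e1, norm_div]
    have hε := Real.rpow_nonneg (eps_nonneg A (F m)) τ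
    calc ‖HF z A (F m) w‖ / ‖PF z (F m) w‖ ≤
        (M * D ^ (F m).card * (eps A (F m)) ^ τ) / (c ^ (F m).card * (∏ i ∈ F m, lam i)⁻¹) := by
          apply div_le_div₀ (by positivity) e2 e4 e3
      _ = _ := by
          rw [div_pow]
          field_simp
  -- the circle integrals
  have hint1 : (∮ w in C(p, s), gen (mom z A) w) = 0 := by
    apply Complex.circleIntegral_eq_zero_of_differentiable_on_off_countable hspos.le countable_empty
    · intro w hw
      rw [mem_closedBall, dist_eq_norm] at hw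
      apply (gen_diff hmom hC hr w ?_).continuousAt.continuousWithinAt
      have h1 := norm_sub_norm_le p w
      rw [norm_sub_rev] at h1
      linarith
    · intro w hw
      have hw' := hw.1
      rw [mem_ball, dist_eq_norm] at hw'
      apply gen_diff hmom hC hr w
      have h1 := norm_sub_norm_le p w
      rw [norm_sub_rev] at h1
      linarith
  have hci : ∀ i, CircleIntegrable (fun w => A i * (w - z i)⁻¹) p s := by
    intro i
    apply ContinuousOn.circleIntegrable hspos.le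
    apply ContinuousOn.mul continuousOn_const
    apply ContinuousOn.inv₀ (by fun_prop)
    intro w hw
    exact sub_ne_zero.2 (hne w hw i)
  have hint2 : ∀ m, (∮ w in C(p, s), Q m w) =
      2 * Real.pi * I * ∑ i ∈ F m, Set.indicator {i | ‖z i - p‖ < s} A i := by
    intro m
    rw [hQ]
    simp only []
    rw [circleIntegral.integral_fun_sum (fun i _ => hci i), Finset.mul_sum]
    apply Finset.sum_congr rfl
    intro i _
    rw [circleIntegral.integral_const_mul]
    by_cases hi : ‖z i - p‖ < s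
    · rw [Set.indicator_of_mem (show i ∈ {i | ‖z i - p‖ < s} from hi),
        circleIntegral.integral_sub_inv_of_mem_ball (by rw [mem_ball, dist_eq_norm]; exact hi)]
      ring
    · rw [Set.indicator_of_notMem (show i ∉ {i | ‖z i - p‖ < s} from hi), mul_zero]
      have hlt : s < ‖z i - p‖ := by
        rcases lt_or_eq_of_le (not_lt.1 hi) with h | h
        · exact h
        · have h2 := hs i
          rw [← h, sub_self, abs_zero] at h2
          have : 0 < c * (lam i)⁻¹ := mul_pos hc0 (inv_pos.2 (hlampos i))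
          linarith
      rw [circ_inv_out hspos hlt, mul_zero]
  have hgc : CircleIntegrable (gen (mom z A)) p s := by
    apply ContinuousOn.circleIntegrable hspos.le
    intro w hw
    apply (gen_diff hmom hC hr w ?_).continuousAt.continuousWithinAt
    have h1 := norm_sub_norm_le p w
    rw [norm_sub_rev, hcirc w hw] at h1
    linarith
  have hQc : ∀ m, CircleIntegrable (Q m) p s := by
    intro m
    exact CircleIntegrable.fun_sum _ (fun i _ => hci i)
  have hbound : ∀ m, eps A (F m) ≤ 1 → ‖∑ i ∈ F m, Set.indicator {i | ‖z i - p‖ < s} A i‖ ≤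
      s * (M * ((D / c) ^ (F m).card * (∏ i ∈ F m, lam i) * (eps A (F m)) ^ τ)) := by
    intro m hm
    have h1 := circleIntegral.norm_integral_le_of_norm_le_const hspos.le (happ m hm)
    rw [circleIntegral.integral_sub hgc (hQc m), hint1, hint2, zero_sub, norm_neg, norm_mul] at h1
    have h2 : ‖(2 * Real.pi * I : ℂ)‖ = 2 * Real.pi := by
      simp [abs_of_pos Real.pi_pos]
    rw [h2] at h1
    have h3 : 0 < 2 * Real.pi := by positivity
    have h4 : 2 * Real.pi * ‖∑ i ∈ F m, Set.indicator {i | ‖z i - p‖ < s} A i‖ ≤ 2 * Real.pi *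
        (s * (M * ((D / c) ^ (F m).card * (∏ i ∈ F m, lam i) * (eps A (F m)) ^ τ))) := by
      linarith
    exact le_of_mul_le_mul_left h4 h3
  -- the limit
  have hlim1 : Tendsto (fun m => ∑ i ∈ F m, Set.indicator {i | ‖z i - p‖ < s} A i) atTop (𝓝 0) := by
    rw [tendsto_zero_iff_norm_tendsto_zero]
    have hDc : 1 ≤ D / c := by rw [le_div_iff₀ hc0]; linarith
    have h1 := (hq (D / c) τ hDc hτ).const_mul (s * M)
    rw [mul_zero] at h1
    have hev : ∀ᶠ m in atTop, eps A (F m) ≤ 1 :=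
      (eps_tendsto hlam hq).eventually (ge_mem_nhds (by norm_num))
    refine squeeze_zero' (Eventually.of_forall fun _ => norm_nonneg _) ?_ h1
    filter_upwards [hev] with m hm
    exact (hbound m hm).trans (le_of_eq (by ring))
  have hsumI : Summable (Set.indicator {i | ‖z i - p‖ < s} A) :=
    Summable.of_norm (by
      refine Summable.of_nonneg_of_le (fun _ => norm_nonneg _) (fun i => ?_) hA
      exact norm_indicator_le_norm_self _ _)
  have hlim2 : Tendsto (fun m => ∑ i ∈ F m, Set.indicator {i | ‖z i - p‖ < s} A i) atTop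
      (𝓝 (∑' i, Set.indicator {i | ‖z i - p‖ < s} A i)) := by
    rw [tendsto_iff_norm_sub_tendsto_zero]
    refine squeeze_zero (fun _ => norm_nonneg _) (fun m => ?_) (eps_tendsto hlam hq)
    have h1 := hsumI.sum_add_tsum_compl (s := F m)
    rw [← h1, sub_add_cancel_left, norm_neg]
    have h3 : ∑' (x : ↑((↑(F m) : Set ι)ᶜ)), Set.indicator {i | ‖z i - p‖ < s} A ↑x =
        ∑' i, Set.indicator (↑(F m) : Set ι)ᶜ (Set.indicator {i | ‖z i - p‖ < s} A) i :=
      tsum_subtype _ _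
    rw [h3]
    unfold eps
    have hs2 : Summable (Set.indicator (↑(F m) : Set ι)ᶜ (fun i => ‖A i‖)) := hA.indicator _
    apply tsum_of_norm_bounded hs2.hasSum
    intro i
    by_cases hi : i ∈ (↑(F m) : Set ι)ᶜ
    · rw [Set.indicator_of_mem hi, Set.indicator_of_mem hi]
      exact norm_indicator_le_norm_self _ _
    · rw [Set.indicator_of_notMem hi, Set.indicator_of_notMem hi, norm_zero]
  exact tendsto_nhds_unique hlim2 hlim1

/-- **Uniqueness of quasianalytic Borel series.** -/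
theorem borel_unique [Countable ι] [DecidableEq ι] {z A : ι → ℂ} {lam : ι → ℝ} {R0 r C : ℝ}
    (hA : Summable (fun i => ‖A i‖)) (hlam : ∀ i, 1 ≤ lam i) (hls : Summable (fun i => (lam i)⁻¹))
    (hz : ∀ i, ‖z i‖ ≤ R0) (hR0 : 0 ≤ R0) (F : ℕ → Finset ι) (hq : Quasi A lam F) (hr : 0 < r)
    (hmom : ∀ k, ‖mom z A k‖ ≤ C * r ^ k) (p : ℂ) (hp : r < ‖p‖) :
    ∑' i, Set.indicator {i | z i = p} A i = 0 := by
  have h1 : ∀ n : ℕ, ∃ s : ℝ, 0 < s ∧ s < 1 / ((n : ℝ) + 1) ∧
      ∑' i, Set.indicator {i | ‖z i - p‖ < s} A i = 0 := fun n =>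
    circle_small hA hlam hls hz hR0 F hq hr hmom p hp _ (by positivity)
  choose s hs0 hs1 hs2 using h1
  have hs : Tendsto s atTop (𝓝 0) :=
    squeeze_zero (fun n => (hs0 n).le) (fun n => (hs1 n).le) tendsto_one_div_add_atTop_nhds_zero_nat
  have hlim : Tendsto (fun n => ∑' i, Set.indicator {i | ‖z i - p‖ < s n} A i) atTop
      (𝓝 (∑' i, Set.indicator {i | z i = p} A i)) := by
    apply tendsto_tsum_of_dominated_convergence hA
    · intro i
      apply tendsto_const_nhds.congr'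
      by_cases hi : z i = p
      · filter_upwards with n
        rw [Set.indicator_of_mem (show i ∈ {i | z i = p} from hi), Set.indicator_of_mem]
        change ‖z i - p‖ < s n
        rw [hi, sub_self, norm_zero]
        exact hs0 n
      · have hpos : 0 < ‖z i - p‖ := norm_pos_iff.2 (sub_ne_zero.2 hi)
        filter_upwards [hs.eventually (gt_mem_nhds hpos)] with n hn
        rw [Set.indicator_of_notMem (show i ∉ {i | z i = p} from hi), Set.indicator_of_notMem]
        change ¬ ‖z i - p‖ < s n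
        exact not_lt.2 hn.le
    · filter_upwards with n i
      exact norm_indicator_le_norm_self _ _
  simp only [hs2] at hlim
  exact tendsto_nhds_unique hlim tendsto_const_nhds

end Pool.Agent.Helper85.SM
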