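import Pool.Agent.Helper85.SM.Kern
import Pool.Agent.Helper85.SM.Res

/-! the explicit formula to the right of a good vertical line -/

set_option autoImplicit false

open Complex Filter Topology Set MeasureTheory Metric H353 Asymptotics

namespace Pool.Agent.Helper85.SM

variable {w : ℝ → ℝ}

/-- the zeros of height less than `T` -/
noncomputable def Fu (σ : ℝ) (T : ℝ) : Finset (ZR σ) :=
  Set.Finite.toFinset (s := {ρ : ZR σ | |ρ.1.im| < T})
    (Set.Finite.of_finite_image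
      ((strip_finite σ T).subset (by
        rintro _ ⟨ρ, hρ, rfl⟩
        exact ⟨ρ.2.1, ρ.2.2, le_of_lt hρ⟩) : ((fun ρ : ZR σ => ρ.1) '' {ρ : ZR σ | |ρ.1.im| < T}).Finite)
      (Subtype.val_injective.injOn))

theorem mem_Fu {σ T : ℝ} {ρ : ZR σ} : ρ ∈ Fu σ T ↔ |ρ.1.im| < T := by
  unfold Fu
  rw [Set.Finite.mem_toFinset]
  rfl

theorem Fu_tendsto (σ : ℝ) {u : ℕ → ℝ} (hu : Tendsto u atTop atTop) :
    Tendsto (fun n => Fu σ (u n)) atTop atTop := by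
  classical
  rw [Filter.tendsto_atTop]
  intro s
  have h1 : ∀ᶠ n in atTop, ∀ ρ ∈ s, |ρ.1.im| < u n := by
    rw [Finset.eventually_all]
    intro ρ _
    exact hu.eventually_gt_atTop _
  filter_upwards [h1] with n hn
  intro ρ hρ
  exact mem_Fu.2 (hn ρ hρ)

theorem mel_summable (hw : Weight w) (σ : ℝ) (h1 : 1 / 2 < σ) (h2 : σ < 1) :
    Summable (fun ρ : ZR σ => (mu ρ.1 : ℝ) * ‖mel w ρ.1‖) := by
  obtain ⟨C, hC, hp⟩ := hw.poly
  refine Summable.of_nonneg_of_le (fun ρ => by positivity) (fun ρ => ?_) ((sum_all σ h1 h2).mul_left C)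
  have h3 := hp ρ.1 (by linarith [ρ.2.2]) (by linarith [FF_re_lt ρ.2.1])
  have hne := FF_im_ne ρ.1 ρ.2.1 (by linarith [ρ.2.2])
  have him : 0 < |ρ.1.im| := abs_pos.2 hne
  have h4 : |ρ.1.im| ≤ (1 + ρ.1.im ^ 2) ^ 3 := by
    have h5 : |ρ.1.im| ≤ 1 + ρ.1.im ^ 2 := by
      rw [← sq_abs]
      nlinarith [sq_nonneg (|ρ.1.im| - 1)]
    have h6 : (1:ℝ) ≤ 1 + ρ.1.im ^ 2 := by nlinarith [sq_nonneg ρ.1.im]
    calc |ρ.1.im| ≤ (1 + ρ.1.im ^ 2) ^ 1 := by rw [pow_one]; exact h5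
      _ ≤ _ := pow_le_pow_right₀ h6 (by norm_num)
  calc (mu ρ.1 : ℝ) * ‖mel w ρ.1‖ ≤ (mu ρ.1 : ℝ) * (C * ((1 + ρ.1.im ^ 2) ^ 3)⁻¹) := by gcongr
    _ ≤ (mu ρ.1 : ℝ) * (C * (|ρ.1.im|)⁻¹) := by gcongr
    _ = C * ((mu ρ.1 : ℝ) / |ρ.1.im|) := by rw [div_eq_mul_inv]; ring

theorem FF_d : Differentiable ℂ FF := ZU.J_g2b.FF_diff

theorem FF_dd : Differentiable ℂ (deriv FF) := fun s => (FF_d.analyticAt s).deriv.differentiableAt

theorem FF_ds : Differentiable ℂ (dslope FF 1) := by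
  have := (Complex.differentiableOn_dslope (f := FF) (s := univ) (c := 1) univ_mem).2
    FF_d.differentiableOn
  exact differentiableOn_univ.1 this

/-- the residue theorem on a truncated rectangle -/
theorem shift_trunc (σ T : ℝ) (h : ℂ → ℂ) (h1 : 1 / 2 < σ) (h2 : σ < 1) (hT : 0 < T)
    (hh : ∀ s : ℂ, 0 < s.re → s.re < 2 → DifferentiableAt ℂ h s)
    (hl : ∀ y : ℝ, FF ⟨σ, y⟩ ≠ 0)
    (hu : ∀ x : ℝ, 1 / 2 < x → x ≤ 3 / 2 → FF ⟨x, T⟩ ≠ 0)
    (hd : ∀ x : ℝ, 1 / 2 < x → x ≤ 3 / 2 → FF ⟨x, -T⟩ ≠ 0) :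
    (∫ x in σ..(3/2), deriv FF (⟨x, -T⟩ : ℂ) / FF ⟨x, -T⟩ * h ⟨x, -T⟩)
      - (∫ x in σ..(3/2), deriv FF (⟨x, T⟩ : ℂ) / FF ⟨x, T⟩ * h ⟨x, T⟩)
      + I * (∫ y in (-T)..T, deriv FF (⟨3/2, y⟩ : ℂ) / FF ⟨3/2, y⟩ * h ⟨3/2, y⟩)
      - I * (∫ y in (-T)..T, deriv FF (⟨σ, y⟩ : ℂ) / FF ⟨σ, y⟩ * h ⟨σ, y⟩)
      = 2 * Real.pi * I * ∑ ρ ∈ Fu σ T, (mu ρ.1 : ℂ) * h ρ.1 := by
  set U : Set ℂ := {s : ℂ | 0 < s.re ∧ s.re < 2} with hU
  have hUo : IsOpen U := by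
    apply IsOpen.and
    · exact isOpen_lt continuous_const Complex.continuous_re
    · exact isOpen_lt Complex.continuous_re continuous_const
  have hKU : Set.Icc σ (3/2) ×ℂ Set.Icc (-T) T ⊆ U := by
    rintro s ⟨h3, _⟩
    rw [mem_preimage] at h3
    exact ⟨by linarith [h3.1], by linarith [h3.2]⟩
  have key := rect_residueU FF h σ (3/2) (-T) T (by linarith) (by linarith) (fun z _ => FF_anal z)
    hUo hKU (fun s hs => (hh s hs.1 hs.2).differentiableWithinAt) (by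
      rintro s ⟨h3, h4⟩ h0
      rw [mem_preimage] at h3 h4
      have e1 : s.re ≠ σ := by
        intro h5
        apply hl s.im
        rw [← h5]
        exact h0
      have e2 : s.re < 1 := FF_re_lt h0
      have e3 : s.im ≠ T := by
        intro h5
        apply hu s.re (by linarith [h3.1]) h3.2
        rw [← h5]
        exact h0
      have e4 : s.im ≠ -T := by
        intro h5
        apply hd s.re (by linarith [h3.1]) h3.2
        rw [← h5]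
        exact h0
      refine ⟨?_, ?_⟩
      · rw [mem_preimage]
        exact ⟨lt_of_le_of_ne h3.1 (Ne.symm e1), by linarith⟩
      · rw [mem_preimage]
        exact ⟨lt_of_le_of_ne h4.1 (Ne.symm e4), lt_of_le_of_ne h4.2 e3⟩)
  rw [key.2]
  congr 1
  have hset : {s | s ∈ Set.Ioo σ (3/2) ×ℂ Set.Ioo (-T) T ∧ FF s = 0} =
      ↑((Fu σ T).map (Function.Embedding.subtype _)) := by
    ext s
    simp only [Set.mem_ofPred_eq, Finset.coe_map, Set.mem_image, Finset.mem_coe, mem_Fu]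
    constructor
    · rintro ⟨⟨h3, h4⟩, h0⟩
      rw [mem_preimage] at h3 h4
      exact ⟨⟨s, h0, h3.1⟩, abs_lt.2 h4, rfl⟩
    · rintro ⟨ρ, hρ, rfl⟩
      refine ⟨⟨?_, ?_⟩, ρ.2.1⟩
      · rw [mem_preimage]
        refine ⟨ρ.2.2, ?_⟩
        have := FF_re_lt ρ.2.1
        simp only [Function.Embedding.subtype_apply]
        linarith
      · rw [mem_preimage]
        exact abs_lt.1 hρ
  rw [hset, finsum_mem_coe_finset, Finset.sum_map]
  rfl

end Pool.Agent.Helper85.SM
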