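import Pool.Agent.Helper85.SM.Expl
import Pool.Graph.R_seed8.H353R2.K5

/-! the explicit formula: passage to the limit -/

set_option autoImplicit false

open Complex Filter Topology Set MeasureTheory Metric H353 Asymptotics

namespace Pool.Agent.Helper85.SM

variable {w : ℝ → ℝ}

theorem mkE (a y : ℝ) : ((a : ℂ) + (y : ℂ) * I) = (⟨a, y⟩ : ℂ) := by
  apply Complex.ext <;> simp

theorem cont_line {f : ℂ → ℂ} {a : ℝ} (hf : ∀ y : ℝ, ContinuousAt f ⟨a, y⟩) :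
    Continuous (fun y : ℝ => f ⟨a, y⟩) := by
  rw [continuous_iff_continuousAt]
  intro y
  have h1 : ContinuousAt f ((a : ℂ) + (y : ℂ) * I) := by rw [mkE]; exact hf y
  have h2 : ContinuousAt (fun y : ℝ => f ((a : ℂ) + (y : ℂ) * I)) y :=
    ContinuousAt.comp (f := fun y : ℝ => (a : ℂ) + (y : ℂ) * I) (g := f) h1 (by fun_prop)
  simpa only [mkE] using h2

theorem ds_bound : ∃ D : ℝ, 0 < D ∧ ∀ s : ℂ, 1 / 2 < s.re → s.re ≤ 3 / 2 →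
    ‖dslope FF 1 s‖ ≤ D * (1 + s.im ^ 2) := by
  refine ⟨7 + ‖deriv FF 1‖, by positivity, fun s h1 h2 => ?_⟩
  have h3 := FF_dslope_bound s h1
  have h4 : ‖s‖ ≤ 3 / 2 + |s.im| := by
    refine (Complex.norm_le_abs_re_add_abs_im s).trans ?_
    rw [abs_of_pos (by linarith : 0 < s.re)]
    linarith
  have h5 : |s.im| ≤ 1 + s.im ^ 2 := by
    rw [← sq_abs]
    nlinarith [sq_nonneg (|s.im| - 1)]
  have h6 : (1:ℝ) ≤ 1 + s.im ^ 2 := by nlinarith [sq_nonneg s.im]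
  have h7 := norm_nonneg (deriv FF 1)
  have h8 : ‖deriv FF 1‖ ≤ ‖deriv FF 1‖ * (1 + s.im ^ 2) := le_mul_of_one_le_right h7 h6
  have h0 : 0 ≤ s.im ^ 2 := sq_nonneg _
  nlinarith

/-- the identity of the explicit formula -/
theorem shift_full (hw : Weight w) (σ : ℝ) (h1 : 1 / 2 < σ) (h2 : σ < 1) (C : ℝ)
    (hC : 0 < C) (hl : ∀ y : ℝ, FF ⟨σ, y⟩ ≠ 0 ∧
      ‖deriv FF ⟨σ, y⟩ / FF ⟨σ, y⟩‖ ≤ C * (1 + |y|) ^ 2) :
    ∃ K : ℝ, 0 < K ∧ ∀ x : ℝ, 0 < x →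
      ‖(Ew w x : ℂ) + ∑' ρ : ZR σ, (mu ρ.1 : ℂ) * (mel w ρ.1 * (x : ℂ) ^ ρ.1)‖ ≤ K * x ^ σ := by
  obtain ⟨Cw, hCw, hp⟩ := hw.poly
  obtain ⟨D, hD, hds⟩ := ds_bound
  obtain ⟨CH, hCH, hH⟩ := good_heights
  -- pointwise bounds
  have q1 : ∀ y : ℝ, (1:ℝ) ≤ 1 + y ^ 2 := fun y => by nlinarith [sq_nonneg y]
  have q2 : ∀ y : ℝ, (1 + |y|) ^ 2 ≤ 2 * (1 + y ^ 2) := fun y => by
    rw [← sq_abs y]; nlinarith [sq_nonneg (|y| - 1)]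
  have q3 : ∀ y : ℝ, (1 + y ^ 2) * ((1 + y ^ 2) ^ 3)⁻¹ ≤ (1 + y ^ 2)⁻¹ := fun y => by
    have h := q1 y
    have e : (1 + y ^ 2) * ((1 + y ^ 2) ^ 3)⁻¹ = ((1 + y ^ 2) ^ 2)⁻¹ := by
      field_simp
    rw [e]
    have h0 : 0 < 1 + y ^ 2 := lt_of_lt_of_le one_pos h
    apply inv_anti₀ h0
    calc 1 + y ^ 2 = (1 + y ^ 2) ^ 1 := (pow_one _).symm
      _ ≤ _ := pow_le_pow_right₀ h (by norm_num)
  have q4 : ∀ y : ℝ, ((1 + y ^ 2) ^ 3)⁻¹ ≤ (1 + y ^ 2)⁻¹ := fun y => by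
    have h := q1 y
    have h0 : 0 < 1 + y ^ 2 := lt_of_lt_of_le one_pos h
    apply inv_anti₀ h0
    calc 1 + y ^ 2 = (1 + y ^ 2) ^ 1 := (pow_one _).symm
      _ ≤ _ := pow_le_pow_right₀ h (by norm_num)
  -- the two integrands on the line `σ`
  have b1 : ∀ y : ℝ, ‖deriv FF ⟨σ, y⟩ / FF ⟨σ, y⟩ * mel w ⟨σ, y⟩‖ ≤ 2 * C * Cw * (1 + y ^ 2)⁻¹ := by
    intro y
    rw [norm_mul]
    have e1 := hp ⟨σ, y⟩ (by simp only; linarith) (by simp only; linarith)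
    simp only at e1
    calc _ ≤ (C * (1 + |y|) ^ 2) * (Cw * ((1 + y ^ 2) ^ 3)⁻¹) := by
          gcongr
          exact (hl y).2
      _ ≤ (C * (2 * (1 + y ^ 2))) * (Cw * ((1 + y ^ 2) ^ 3)⁻¹) := by
          have := q2 y
          gcongr
      _ = 2 * C * Cw * ((1 + y ^ 2) * ((1 + y ^ 2) ^ 3)⁻¹) := by ring
      _ ≤ _ := by
          have := q3 y
          gcongr
  have b2 : ∀ s : ℂ, 1 / 2 < s.re → s.re ≤ 3 / 2 →
      ‖dslope FF 1 s * mel w s‖ ≤ D * Cw * (1 + s.im ^ 2)⁻¹ := by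
    intro s hs1 hs2
    rw [norm_mul]
    calc _ ≤ (D * (1 + s.im ^ 2)) * (Cw * ((1 + s.im ^ 2) ^ 3)⁻¹) := by
          gcongr
          · exact hds s hs1 hs2
          · exact hp s hs1.le hs2
      _ = D * Cw * ((1 + s.im ^ 2) * ((1 + s.im ^ 2) ^ 3)⁻¹) := by ring
      _ ≤ _ := by
          have := q3 s.im
          gcongr
  refine ⟨(2 * C * Cw + D * Cw) * Real.pi + 1, by positivity, fun x hx => ?_⟩
  set h : ℂ → ℂ := fun s => mel w s * (x : ℂ) ^ s with hh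
  have hxne : (x : ℂ) ≠ 0 := by exact_mod_cast hx.ne'
  have hhd : ∀ s : ℂ, 0 < s.re → s.re < 2 → DifferentiableAt ℂ h s := fun s hs1 hs2 =>
    (hw.diff hs1 hs2).mul (DifferentiableAt.const_cpow differentiableAt_id (Or.inl hxne))
  have hxn : ∀ s : ℂ, ‖(x : ℂ) ^ s‖ = x ^ s.re := fun s => Complex.norm_cpow_eq_rpow_re_of_pos hx s
  set X : ℝ := x ^ σ + x ^ (3 / 2 : ℝ) with hX
  have hX0 : 0 < X := by positivity
  have hxX : ∀ s : ℂ, σ ≤ s.re → s.re ≤ 3 / 2 → ‖(x : ℂ) ^ s‖ ≤ X := by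
    intro s hs1 hs2
    rw [hxn]
    rcases le_or_gt 1 x with hx1 | hx1
    · calc x ^ s.re ≤ x ^ (3 / 2 : ℝ) := Real.rpow_le_rpow_of_exponent_le hx1 hs2
        _ ≤ X := by rw [hX]; linarith [Real.rpow_pos_of_pos hx σ]
    · calc x ^ s.re ≤ x ^ σ := Real.rpow_le_rpow_of_exponent_ge hx hx1.le hs1
        _ ≤ X := by rw [hX]; linarith [Real.rpow_pos_of_pos hx (3 / 2)]
  have hhb : ∀ s : ℂ, σ ≤ s.re → s.re ≤ 3 / 2 → ‖h s‖ ≤ X * Cw * ((1 + s.im ^ 2) ^ 3)⁻¹ := by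
    intro s hs1 hs2
    rw [hh]
    simp only [norm_mul]
    calc ‖mel w s‖ * ‖(x : ℂ) ^ s‖ ≤ (Cw * ((1 + s.im ^ 2) ^ 3)⁻¹) * X := by
          gcongr
          · exact hp s (by linarith) hs2
          · exact hxX s hs1 hs2
      _ = _ := by ring
  -- integrals on the line `3/2`
  obtain ⟨hI, hE⟩ := Ew_integral hw x hx
  have hIh : (fun y : ℝ => LSeries (fun n => (aL n : ℂ)) ⟨3 / 2, y⟩ *
      (mel w ⟨3 / 2, y⟩ * (x : ℂ) ^ (⟨3 / 2, y⟩ : ℂ))) =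
      fun y : ℝ => -(deriv FF ⟨3 / 2, y⟩ / FF ⟨3 / 2, y⟩ * h ⟨3 / 2, y⟩) -
        dslope FF 1 ⟨3 / 2, y⟩ * h ⟨3 / 2, y⟩ := by
    funext y
    rw [aL_id (by simp only; norm_num), hh]
    ring
  have hG2c : ∀ a : ℝ, 0 < a → a < 2 → Continuous (fun y : ℝ => dslope FF 1 ⟨a, y⟩ * h ⟨a, y⟩) := by
    intro a ha1 ha2
    apply cont_line (f := fun s => dslope FF 1 s * h s)
    intro y
    exact (FF_ds _).continuousAt.mul (hhd _ ha1 ha2).continuousAt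
  have hG2b : ∀ s : ℂ, σ ≤ s.re → s.re ≤ 3 / 2 → ‖dslope FF 1 s * h s‖ ≤
      (D * Cw * X) * (1 + s.im ^ 2)⁻¹ := by
    intro s hs1 hs2
    have e : dslope FF 1 s * h s = (dslope FF 1 s * mel w s) * (x : ℂ) ^ s := by
      rw [hh]; ring
    rw [e, norm_mul]
    calc _ ≤ (D * Cw * (1 + s.im ^ 2)⁻¹) * X := by
          gcongr
          · exact b2 s (by linarith) hs2
          · exact hxX s hs1 hs2
      _ = _ := by ring
  have hG2i : ∀ a : ℝ, σ ≤ a → a ≤ 3 / 2 → Integrable (fun y : ℝ => dslope FF 1 ⟨a, y⟩ * h ⟨a, y⟩) := by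
    intro a ha1 ha2
    refine (integrable_inv_one_add_sq.const_mul (D * Cw * X)).mono'
      (hG2c a (by linarith) (by linarith)).aestronglyMeasurable (ae_of_all _ fun y => ?_)
    exact hG2b ⟨a, y⟩ ha1 ha2
  have hG2shift : ∫ y : ℝ, dslope FF 1 ⟨σ, y⟩ * h ⟨σ, y⟩ = ∫ y : ℝ, dslope FF 1 ⟨3 / 2, y⟩ * h ⟨3 / 2, y⟩ := by
    have key := shift_y σ (3 / 2) (by linarith) (fun s => dslope FF 1 s * h s)
      (fun s hs1 hs2 => (FF_ds s).mul (hhd s (by linarith) (by linarith))) (D * Cw * X) hG2b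
    simp only [mkE] at key
    exact key
  have hG1i : Integrable (fun y : ℝ => deriv FF ⟨3 / 2, y⟩ / FF ⟨3 / 2, y⟩ * h ⟨3 / 2, y⟩) := by
    rw [hIh] at hI
    have h3 := (hI.add (hG2i (3 / 2) (by linarith) le_rfl)).neg
    refine h3.congr (ae_of_all _ fun y => ?_)
    simp only [Pi.neg_apply, Pi.add_apply]
    ring
  have hG1σc : Continuous (fun y : ℝ => deriv FF ⟨σ, y⟩ / FF ⟨σ, y⟩ * h ⟨σ, y⟩) := by
    apply cont_line (f := fun s => deriv FF s / FF s * h s)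
    intro y
    exact ((FF_dd _).continuousAt.div (FF_d _).continuousAt (hl y).1).mul
      (hhd _ (by simp only; linarith) (by simp only; linarith)).continuousAt
  have hG1σb : ∀ y : ℝ, ‖deriv FF ⟨σ, y⟩ / FF ⟨σ, y⟩ * h ⟨σ, y⟩‖ ≤
      (2 * C * Cw * (1 + y ^ 2)⁻¹) * x ^ σ := by
    intro y
    have e : deriv FF ⟨σ, y⟩ / FF ⟨σ, y⟩ * h ⟨σ, y⟩ =
      (deriv FF ⟨σ, y⟩ / FF ⟨σ, y⟩ * mel w ⟨σ, y⟩) * (x : ℂ) ^ (⟨σ, y⟩ : ℂ) := by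
      rw [hh]; ring
    rw [e, norm_mul, hxn]
    have := b1 y
    gcongr
  have hG1σi : Integrable (fun y : ℝ => deriv FF ⟨σ, y⟩ / FF ⟨σ, y⟩ * h ⟨σ, y⟩) := by
    refine ((integrable_inv_one_add_sq.const_mul (2 * C * Cw)).mul_const (x ^ σ)).mono'
      hG1σc.aestronglyMeasurable (ae_of_all _ fun y => ?_)
    exact hG1σb y
  -- the heights
  have hex : ∀ n : ℕ, ∃ U : ℝ, (n : ℝ) + 3 ≤ U ∧ U ≤ (n : ℝ) + 4 ∧
    ∀ x : ℝ, 1 / 2 < x → x ≤ 3 / 2 → (FF ⟨x, U⟩ ≠ 0 ∧ ‖deriv FF ⟨x, U⟩ / FF ⟨x, U⟩‖ ≤ CH * (1 + U) ^ 2) ∧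
      (FF ⟨x, -U⟩ ≠ 0 ∧ ‖deriv FF ⟨x, -U⟩ / FF ⟨x, -U⟩‖ ≤ CH * (1 + U) ^ 2) := by
    intro n
    obtain ⟨U, hU1, hU2, hU3⟩ := hH ((n : ℝ) + 3) (by linarith [(Nat.cast_nonneg n : (0:ℝ) ≤ n)])
    exact ⟨U, hU1, by linarith, hU3⟩
  choose u hu1 hu2 hu3 using hex
  have hut : Tendsto u atTop atTop := by
    refine tendsto_atTop_mono (fun n => ?_) tendsto_natCast_atTop_atTop
    linarith [hu1 n]
  have hupos : ∀ n, 0 < u n := fun n => by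
    linarith [hu1 n, (Nat.cast_nonneg n : (0:ℝ) ≤ n)]
  -- horizontal integrals
  have hz0 : Tendsto (fun n => (X * Cw * CH * 2 * (1 + (u n) ^ 2)⁻¹) * |3 / 2 - σ|) atTop (𝓝 0) := by
    have e1 : Tendsto (fun t : ℝ => (1 + t ^ 2)⁻¹) atTop (𝓝 0) := by
      refine tendsto_inv_atTop_zero.comp ?_
      exact tendsto_atTop_add_const_left _ _ (tendsto_pow_atTop (by norm_num))
    have e2 := ((e1.comp hut).const_mul (X * Cw * CH * 2)).mul_const |3 / 2 - σ|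
    simpa using e2
  have hhor : ∀ n, ∀ e : ℝ, (e = u n ∨ e = -u n) →
      ‖∫ t in σ..(3/2), deriv FF (⟨t, e⟩ : ℂ) / FF ⟨t, e⟩ * h ⟨t, e⟩‖ ≤
        (X * Cw * CH * 2 * (1 + (u n) ^ 2)⁻¹) * |3 / 2 - σ| := by
    intro n e he
    apply intervalIntegral.norm_integral_le_of_norm_le_const
    intro t ht
    rw [uIoc_of_le (by linarith)] at ht
    have k1 : ‖deriv FF (⟨t, e⟩ : ℂ) / FF ⟨t, e⟩‖ ≤ CH * (1 + u n) ^ 2 := by
      have := hu3 n t (by linarith [ht.1]) ht.2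
      rcases he with rfl | rfl
      · exact this.1.2
      · exact this.2.2
    have he2 : e ^ 2 = (u n) ^ 2 := by rcases he with rfl | rfl <;> ring
    have k2 := hhb ⟨t, e⟩ ht.1.le ht.2
    simp only at k2
    rw [he2] at k2
    have k3 := q2 (u n)
    rw [abs_of_pos (hupos n)] at k3
    rw [norm_mul]
    calc _ ≤ (CH * (1 + u n) ^ 2) * (X * Cw * ((1 + (u n) ^ 2) ^ 3)⁻¹) := by gcongr
      _ ≤ (CH * (2 * (1 + (u n) ^ 2))) * (X * Cw * ((1 + (u n) ^ 2) ^ 3)⁻¹) := by gcongr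
      _ = X * Cw * CH * 2 * ((1 + (u n) ^ 2) * ((1 + (u n) ^ 2) ^ 3)⁻¹) := by ring
      _ ≤ _ := by
          have := q3 (u n)
          gcongr
  have hhor0 : ∀ ε : ℕ → ℝ, (∀ n, ε n = u n ∨ ε n = -u n) →
      Tendsto (fun n => ∫ t in σ..(3/2), deriv FF (⟨t, ε n⟩ : ℂ) / FF ⟨t, ε n⟩ * h ⟨t, ε n⟩) atTop (𝓝 0) :=
    fun ε hε => squeeze_zero_norm (fun n => hhor n (ε n) (hε n)) hz0
  -- vertical integrals
  have hV1 := intervalIntegral_tendsto_integral hG1i (tendsto_neg_atTop_atBot.comp hut) hut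
  have hV2 := intervalIntegral_tendsto_integral hG1σi (tendsto_neg_atTop_atBot.comp hut) hut
  -- the sum over zeros
  have hzs : Summable (fun ρ : ZR σ => (mu ρ.1 : ℂ) * h ρ.1) := by
    apply Summable.of_norm
    refine Summable.of_nonneg_of_le (fun _ => norm_nonneg _) (fun ρ => ?_)
      ((mel_summable hw σ h1 h2).mul_left X)
    rw [norm_mul, hh]
    simp only [norm_mul, Complex.norm_natCast]
    have := hxX ρ.1 ρ.2.2.le (by linarith [FF_re_lt ρ.2.1])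
    calc (mu ρ.1 : ℝ) * (‖mel w ρ.1‖ * ‖(x : ℂ) ^ ρ.1‖) ≤ (mu ρ.1 : ℝ) * (‖mel w ρ.1‖ * X) := by gcongr
      _ = _ := by ring
  have hsum := hzs.hasSum.comp (Fu_tendsto σ hut)
  have hid : ∀ n, (∫ t in σ..(3/2), deriv FF (⟨t, -u n⟩ : ℂ) / FF ⟨t, -u n⟩ * h ⟨t, -u n⟩)
      - (∫ t in σ..(3/2), deriv FF (⟨t, u n⟩ : ℂ) / FF ⟨t, u n⟩ * h ⟨t, u n⟩)
      + I * (∫ y in (-u n)..(u n), deriv FF (⟨3/2, y⟩ : ℂ) / FF ⟨3/2, y⟩ * h ⟨3/2, y⟩)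
      - I * (∫ y in (-u n)..(u n), deriv FF (⟨σ, y⟩ : ℂ) / FF ⟨σ, y⟩ * h ⟨σ, y⟩)
      = 2 * Real.pi * I * ∑ ρ ∈ Fu σ (u n), (mu ρ.1 : ℂ) * h ρ.1 := by
    intro n
    exact shift_trunc σ (u n) h h1 h2 (hupos n) hhd (fun y => (hl y).1)
      (fun t ht1 ht2 => (hu3 n t ht1 ht2).1.1) (fun t ht1 ht2 => (hu3 n t ht1 ht2).2.1)
  have hlim := (((hhor0 (fun n => -u n) (fun n => Or.inr rfl)).sub
    (hhor0 u (fun n => Or.inl rfl))).add (hV1.const_mul I)).sub (hV2.const_mul I)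
  have hlim2 := hsum.const_mul (2 * Real.pi * I : ℂ)
  have hfin := tendsto_nhds_unique (hlim.congr (fun n => hid n)) hlim2
  rw [sub_zero, zero_add] at hfin
  -- conclusion
  set J1 := ∫ y : ℝ, deriv FF ⟨3 / 2, y⟩ / FF ⟨3 / 2, y⟩ * h ⟨3 / 2, y⟩ with hJ1
  set J2 := ∫ y : ℝ, deriv FF ⟨σ, y⟩ / FF ⟨σ, y⟩ * h ⟨σ, y⟩ with hJ2
  set S := ∑' ρ : ZR σ, (mu ρ.1 : ℂ) * h ρ.1 with hS
  have hJ : J1 = J2 + 2 * Real.pi * S := by
    have e : I * (J1 - (J2 + 2 * Real.pi * S)) = 0 := by linear_combination hfin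
    rcases mul_eq_zero.1 e with h0 | h0
    · exact absurd h0 Complex.I_ne_zero
    · exact sub_eq_zero.1 h0
  have hE2 : (Ew w x : ℂ) + S = -((1 / (2 * Real.pi) : ℝ) : ℂ) *
      ((∫ y : ℝ, deriv FF ⟨σ, y⟩ / FF ⟨σ, y⟩ * h ⟨σ, y⟩) + ∫ y : ℝ, dslope FF 1 ⟨σ, y⟩ * h ⟨σ, y⟩) := by
    have hneg : Integrable (fun y : ℝ => -(deriv FF ⟨3 / 2, y⟩ / FF ⟨3 / 2, y⟩ * h ⟨3 / 2, y⟩)) := hG1i.neg
    rw [hE, hIh, integral_sub hneg (hG2i (3/2) (by linarith) le_rfl), integral_neg, hG2shift,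
      ← hJ1, ← hJ2, hJ]
    have hpi : (Real.pi : ℂ) ≠ 0 := by exact_mod_cast Real.pi_ne_zero
    push_cast
    field_simp
    ring
  change ‖(Ew w x : ℂ) + S‖ ≤ _
  rw [hE2, norm_mul, norm_neg, Complex.norm_real, Real.norm_eq_abs,
    abs_of_pos (by positivity : 0 < 1 / (2 * Real.pi)),
    ← integral_add hG1σi (hG2i σ le_rfl (by linarith))]
  have hb : ‖∫ y : ℝ, (deriv FF ⟨σ, y⟩ / FF ⟨σ, y⟩ * h ⟨σ, y⟩ + dslope FF 1 ⟨σ, y⟩ * h ⟨σ, y⟩)‖ ≤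
      ∫ y : ℝ, ((2 * C * Cw + D * Cw) * x ^ σ) * (1 + y ^ 2)⁻¹ := by
    apply norm_integral_le_of_norm_le (integrable_inv_one_add_sq.const_mul _)
    refine ae_of_all _ fun y => ?_
    refine (norm_add_le _ _).trans ?_
    have e : dslope FF 1 ⟨σ, y⟩ * h ⟨σ, y⟩ = (dslope FF 1 ⟨σ, y⟩ * mel w ⟨σ, y⟩) * (x : ℂ) ^ (⟨σ, y⟩ : ℂ) := by
      rw [hh]; ring
    have e2 : ‖dslope FF 1 ⟨σ, y⟩ * h ⟨σ, y⟩‖ ≤ (D * Cw * (1 + y ^ 2)⁻¹) * x ^ σ := by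
      rw [e, norm_mul, hxn]
      have := b2 ⟨σ, y⟩ h1 (by simp only; linarith)
      simp only at this
      gcongr
    calc _ ≤ (2 * C * Cw * (1 + y ^ 2)⁻¹) * x ^ σ + (D * Cw * (1 + y ^ 2)⁻¹) * x ^ σ :=
          add_le_add (hG1σb y) e2
      _ = _ := by ring
  rw [integral_const_mul, integral_univ_inv_one_add_sq] at hb
  have hxσ : 0 < x ^ σ := Real.rpow_pos_of_pos hx σ
  calc 1 / (2 * Real.pi) * ‖_‖ ≤ 1 / (2 * Real.pi) * ((2 * C * Cw + D * Cw) * x ^ σ * Real.pi) := by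
        gcongr
    _ = 1 / 2 * ((2 * C * Cw + D * Cw) * x ^ σ) := by
        have := Real.pi_pos
        field_simp
    _ ≤ ((2 * C * Cw + D * Cw) * Real.pi + 1) * x ^ σ := by
        have h3 : 0 < (2 * C * Cw + D * Cw) := by positivity
        have h4 : (1:ℝ) / 2 ≤ Real.pi := by linarith [Real.pi_gt_three]
        have h5 : 1 / 2 * (2 * C * Cw + D * Cw) ≤ (2 * C * Cw + D * Cw) * Real.pi := by nlinarith
        nlinarith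

/-- **Explicit formula**: for some abscissa in any interval. -/
theorem explicit_formula (hw : Weight w) (σ1 σ2 : ℝ) (h1 : 1 / 2 < σ1) (h12 : σ1 < σ2) (h2 : σ2 ≤ 1) :
    ∃ σ : ℝ, σ1 < σ ∧ σ < σ2 ∧ ∃ K : ℝ, 0 < K ∧ ∀ x : ℝ, 0 < x →
      ‖(Ew w x : ℂ) + ∑' ρ : ZR σ, (mu ρ.1 : ℂ) * (mel w ρ.1 * (x : ℂ) ^ ρ.1)‖ ≤ K * x ^ σ := by
  obtain ⟨σ, e1, e2, C, hC, hl⟩ := good_line σ1 σ2 h1 h12 h2
  exact ⟨σ, e1, e2, shift_full hw σ (by linarith) (by linarith) C hC hl⟩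

end Pool.Agent.Helper85.SM
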