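import Pool.Agent.Helper85.SM.Kern
import Pool.Graph.R_seed8.H777R2.SM_T6D

/-! the exponential weight -/

set_option autoImplicit false

open Complex Filter Topology Set MeasureTheory Metric H353 Asymptotics

namespace Pool.Agent.Helper85.SM

theorem real_gamma_shift : ∃ G : ℝ, 0 < G ∧ ∀ σ : ℝ, 1 / 2 ≤ σ → σ ≤ 3 / 2 → ∀ N : ℕ,
    Real.Gamma (σ + N) ≤ G * ((N + 1).factorial : ℝ) := by
  have hcont : ContinuousOn Real.Gamma (Icc (1/2) (3/2)) := by
    intro t ht
    refine (Real.differentiableAt_Gamma fun m => ?_).continuousAt.continuousWithinAt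
    have : (0:ℝ) ≤ m := Nat.cast_nonneg m
    linarith [ht.1]
  obtain ⟨G, hG⟩ := isCompact_Icc.exists_bound_of_continuousOn hcont
  refine ⟨|G| + 1, by positivity, fun σ h1 h2 N => ?_⟩
  induction N with
  | zero =>
    simp only [Nat.cast_zero, add_zero, zero_add, Nat.factorial_one, Nat.cast_one, mul_one]
    have := hG σ ⟨h1, h2⟩
    rw [Real.norm_eq_abs] at this
    linarith [le_abs_self (Real.Gamma σ), le_abs_self G]
  | succ N ih =>
    have hN : (0:ℝ) ≤ N := Nat.cast_nonneg N
    have e : σ + ((N + 1 : ℕ) : ℝ) = (σ + N) + 1 := by push_cast; ring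
    rw [e, Real.Gamma_add_one (by linarith)]
    have h3 : (((N + 1 + 1).factorial : ℕ) : ℝ) = ((N : ℝ) + 2) * ((N + 1).factorial : ℝ) := by
      rw [Nat.factorial_succ (N + 1)]
      push_cast
      ring
    rw [h3]
    have h4 : 0 < Real.Gamma (σ + N) := Real.Gamma_pos_of_pos (by linarith)
    have h5 : σ + N ≤ (N : ℝ) + 2 := by linarith
    calc (σ + N) * Real.Gamma (σ + N) ≤ ((N : ℝ) + 2) * Real.Gamma (σ + N) :=
          mul_le_mul_of_nonneg_right h5 h4.le
      _ ≤ ((N : ℝ) + 2) * ((|G| + 1) * ((N + 1).factorial : ℝ)) := by gcongr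
      _ = _ := by ring

/-- the decay rate obtained for the Gamma function -/
noncomputable def c0 : ℝ := Real.log 2 / 16

theorem c0_pos : 0 < c0 := div_pos (Real.log_pos (by norm_num)) (by norm_num)

theorem gamma_decay : ∃ C : ℝ, 0 < C ∧ ∀ s : ℂ, 1 / 2 ≤ s.re → s.re ≤ 3 / 2 →
    ‖Gamma s‖ ≤ C * Real.exp (-(c0 * |s.im|)) := by
  obtain ⟨G, hG, hsh⟩ := real_gamma_shift
  refine ⟨2 * G, by positivity, fun s h1 h2 => ?_⟩
  set t := |s.im| with ht
  have ht0 : 0 ≤ t := abs_nonneg _
  set N := ⌊(1 + t) / 16⌋₊ with hN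
  have hN1 : (N : ℝ) ≤ (1 + t) / 16 := Nat.floor_le (by positivity)
  have hN2 : (1 + t) / 16 < (N : ℝ) + 1 := Nat.lt_floor_add_one _
  have key := Pool.Agent.H777R2.SM.norm_Gamma_decay s h1 N
  have hg := hsh s.re h1 h2 N
  have h3 : ‖Gamma s‖ ≤ G * (1 / 2) ^ N := by
    refine key.trans ?_
    rcases Nat.eq_zero_or_pos N with h0 | h0
    · rw [h0] at hg ⊢
      simpa using hg
    · have hNr : (1:ℝ) ≤ N := by exact_mod_cast h0
      have h4 : (16 * (N:ℝ)) ^ N ≤ (1 + |s.im|) ^ N := by
        apply pow_le_pow_left₀ (by positivity)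
        linarith
      have h5 : ((N + 1).factorial : ℝ) ≤ 2 ^ N * (N : ℝ) ^ N := by
        rw [Nat.factorial_succ]
        push_cast
        have h6 : (N : ℝ) + 1 ≤ 2 ^ N := by exact_mod_cast Nat.lt_two_pow_self
        have h7 : ((N.factorial : ℕ) : ℝ) ≤ (N : ℝ) ^ N := by exact_mod_cast Nat.factorial_le_pow N
        gcongr
      calc 4 ^ N * Real.Gamma (s.re + N) / (1 + |s.im|) ^ N ≤
            4 ^ N * (G * (2 ^ N * (N : ℝ) ^ N)) / (16 * (N:ℝ)) ^ N := by
              gcongr
              exact hg.trans (by gcongr)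
        _ = G * (1 / 2) ^ N := by
              have e1 : (16 * (N:ℝ)) ^ N = (4 * 2 * 2 * N) ^ N := by congr 1; ring
              rw [e1]
              simp only [mul_pow, div_pow, one_pow]
              have : (N:ℝ) ^ N ≠ 0 := by positivity
              field_simp
  refine h3.trans ?_
  have h8 : (1 / 2 : ℝ) ^ N ≤ 2 * Real.exp (-(c0 * t)) := by
    have e1 : (1 / 2 : ℝ) ^ N = Real.exp (-(Real.log 2 * N)) := by
      rw [Real.exp_neg, Real.exp_mul, Real.exp_log (by norm_num), Real.rpow_natCast, one_div, inv_pow]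
    have e2 : (2:ℝ) = Real.exp (Real.log 2) := (Real.exp_log (by norm_num)).symm
    rw [e1]
    nth_rewrite 2 [e2]
    rw [← Real.exp_add]
    apply Real.exp_le_exp.2
    have hl : 0 < Real.log 2 := Real.log_pos (by norm_num)
    unfold c0
    nlinarith
  calc G * (1 / 2) ^ N ≤ G * (2 * Real.exp (-(c0 * t))) := by gcongr
    _ = _ := by ring

theorem exp_lin_le (b : ℝ) (hb0 : 0 < b) (hb : b < 1) : ∃ C : ℝ, 0 < C ∧ ∀ t : ℝ, 0 ≤ t →
    Real.exp (-(c0 * t)) ≤ C * Real.exp (-t ^ b) := by
  set T := (1 / c0) ^ (1 / (1 - b)) with hT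
  have hpi := c0_pos
  have hT0 : 0 < T := Real.rpow_pos_of_pos (by positivity) _
  refine ⟨Real.exp (T ^ b), Real.exp_pos _, fun t ht => ?_⟩
  rw [← Real.exp_add]
  apply Real.exp_le_exp.2
  have hTb : 0 < T ^ b := Real.rpow_pos_of_pos hT0 _
  rcases le_or_gt t T with h | h
  · have h1 : t ^ b ≤ T ^ b := Real.rpow_le_rpow ht h hb0.le
    have h2 : 0 ≤ c0 * t := by positivity
    linarith
  · have ht0 : 0 < t := hT0.trans h
    have h1 : t ^ b ≤ c0 * t := by
      have h2 : T ^ (1 - b) ≤ t ^ (1 - b) := Real.rpow_le_rpow hT0.le h.le (by linarith)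
      have h3 : T ^ (1 - b) = 1 / c0 := by
        rw [hT, ← Real.rpow_mul (by positivity)]
        have : 1 / (1 - b) * (1 - b) = 1 := by
          have : (1 - b) ≠ 0 := by linarith
          field_simp
        rw [this, Real.rpow_one]
      have h4 : t = t ^ b * t ^ (1 - b) := by
        rw [← Real.rpow_add ht0]
        have : b + (1 - b) = 1 := by ring
        rw [this, Real.rpow_one]
      have h5 : 0 < t ^ b := Real.rpow_pos_of_pos ht0 _
      calc t ^ b = c0 * (t ^ b * (1 / c0)) := by field_simp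
        _ ≤ c0 * (t ^ b * t ^ (1 - b)) := by
            rw [← h3]; gcongr
        _ = c0 * t := by rw [← h4]
    linarith

/-- the exponential weight -/
noncomputable def expW (y : ℝ) : ℝ := Real.exp (-y)

theorem mel_expW {s : ℂ} (hs : 0 < s.re) : mel expW s = Gamma s := by
  rw [Complex.Gamma_eq_integral hs, Complex.GammaIntegral_eq_mellin]
  rfl

theorem expW_weight : Weight expW where
  cont := by unfold expW; fun_prop
  zero := by
    apply IsBigO.of_bound 1
    filter_upwards [self_mem_nhdsWithin] with y hy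
    unfold expW
    rw [Real.norm_eq_abs, abs_of_pos (Real.exp_pos _), norm_one, mul_one]
    apply Real.exp_le_one_iff.2
    have : (0:ℝ) < y := hy
    linarith
  inf := by
    have := isLittleO_exp_neg_mul_rpow_atTop (one_pos) (-2)
    refine this.isBigO.congr_left (fun y => ?_)
    unfold expW
    simp
  decay := by
    intro b hb0 hb
    obtain ⟨C, hC, hg⟩ := gamma_decay
    obtain ⟨C2, hC2, he⟩ := exp_lin_le b hb0 hb
    refine ⟨C * C2, fun s h1 h2 => ?_⟩
    rw [mel_expW (by linarith)]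
    calc ‖Gamma s‖ ≤ C * Real.exp (-(c0 * |s.im|)) := hg s h1 h2
      _ ≤ C * (C2 * Real.exp (-|s.im| ^ b)) := by
          have := he |s.im| (abs_nonneg _)
          gcongr
      _ = _ := by ring

end Pool.Agent.Helper85.SM
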