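import Pool.Agent.Helper85.SM.Line
import Pool.Graph.R_seed8.H353R2.K9

/-! weights and the smoothed prime sum -/

set_option autoImplicit false

open Complex Filter Topology Set MeasureTheory Metric H353 Asymptotics

namespace Pool.Agent.Helper85.SM

/-- Mellin transform of the weight `w` -/
noncomputable def mel (w : ℝ → ℝ) (s : ℂ) : ℂ := mellin (fun y => (w y : ℂ)) s

/-- The class of weights: `w` is continuous on `(0,∞)`, bounded near `0`, `O(y^{-2})` at infinity, and its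
Mellin transform is `O(exp(-|Im s|^b))` on the strip `1/2 ≤ Re s ≤ 3/2`, for every `0 < b < 1`. -/
structure Weight (w : ℝ → ℝ) : Prop where
  cont : ContinuousOn w (Ioi 0)
  zero : w =O[𝓝[>] 0] (fun _ => (1 : ℝ))
  inf : w =O[atTop] (fun y => y ^ (-2 : ℝ))
  decay : ∀ b : ℝ, 0 < b → b < 1 → ∃ C : ℝ, ∀ s : ℂ, 1 / 2 ≤ s.re → s.re ≤ 3 / 2 →
    ‖mel w s‖ ≤ C * Real.exp (-|s.im| ^ b)

/-- The smoothed prime sum `E_w(x) = ∑_n (Λ(n) - 1) w(n/x)`. -/
noncomputable def Ew (w : ℝ → ℝ) (x : ℝ) : ℝ := ∑' n : ℕ, aL n * w (n / x)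

variable {w : ℝ → ℝ}

theorem Weight.loc (hw : Weight w) : LocallyIntegrableOn (fun y => (w y : ℂ)) (Ioi 0) := by
  apply ContinuousOn.locallyIntegrableOn _ measurableSet_Ioi
  exact Complex.continuous_ofReal.comp_continuousOn hw.cont

theorem Weight.zero' (hw : Weight w) :
    (fun y => (w y : ℂ)) =O[𝓝[>] 0] (fun y : ℝ => y ^ (-(0:ℝ))) := by
  have h := hw.zero
  simp only [neg_zero, Real.rpow_zero]
  rw [← isBigO_norm_left] at h ⊢
  simpa using h

theorem Weight.inf' (hw : Weight w) :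
    (fun y => (w y : ℂ)) =O[atTop] (fun y : ℝ => y ^ (-(2:ℝ))) := by
  have h := hw.inf
  rw [← isBigO_norm_left] at h ⊢
  simpa using h

theorem Weight.conv (hw : Weight w) {s : ℂ} (h1 : 0 < s.re) (h2 : s.re < 2) :
    MellinConvergent (fun y => (w y : ℂ)) s :=
  mellinConvergent_of_isBigO_rpow hw.loc hw.inf' h2 hw.zero' h1

theorem Weight.diff (hw : Weight w) {s : ℂ} (h1 : 0 < s.re) (h2 : s.re < 2) :
    DifferentiableAt ℂ (mel w) s :=
  mellin_differentiableAt_of_isBigO_rpow hw.loc hw.inf' h2 hw.zero' h1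

theorem poly_exp (t : ℝ) (ht : 0 ≤ t) :
    (1 + t ^ 2) ^ 3 * Real.exp (-t ^ (1 / 2 : ℝ)) ≤ (Nat.factorial 12 : ℝ) * Real.exp 1 := by
  set u := t ^ (1 / 2 : ℝ) with hu
  have hu0 : 0 ≤ u := Real.rpow_nonneg ht _
  have htu : t = u ^ 2 := by
    rw [hu, ← Real.rpow_natCast, ← Real.rpow_mul ht]
    norm_num
  have h1 := Real.pow_div_factorial_le_exp (1 + u) (by positivity) 12
  have h2 : (1 + t ^ 2) ^ 3 ≤ (1 + u) ^ 12 := by
    have h3 : 1 + t ^ 2 ≤ (1 + u) ^ 4 := by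
      rw [htu]
      nlinarith [pow_nonneg hu0 2, pow_nonneg hu0 3, pow_nonneg hu0 4]
    calc (1 + t ^ 2) ^ 3 ≤ ((1 + u) ^ 4) ^ 3 := by gcongr
      _ = _ := by ring
  have h4 : (1 + u) ^ 12 ≤ (Nat.factorial 12 : ℝ) * Real.exp (1 + u) := by
    rw [div_le_iff₀ (by positivity)] at h1
    linarith
  calc (1 + t ^ 2) ^ 3 * Real.exp (-u) ≤ ((Nat.factorial 12 : ℝ) * Real.exp (1 + u)) * Real.exp (-u) := by
        gcongr
        exact h2.trans h4
    _ = _ := by rw [mul_assoc, ← Real.exp_add]; congr 2; ring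

/-- polynomial decay -/
theorem Weight.poly (hw : Weight w) : ∃ C : ℝ, 0 < C ∧ ∀ s : ℂ, 1 / 2 ≤ s.re → s.re ≤ 3 / 2 →
    ‖mel w s‖ ≤ C * ((1 + s.im ^ 2) ^ 3)⁻¹ := by
  obtain ⟨C, hC⟩ := hw.decay (1 / 2) (by norm_num) (by norm_num)
  refine ⟨|C| * ((Nat.factorial 12 : ℝ) * Real.exp 1) + 1, by positivity, fun s h1 h2 => ?_⟩
  have h3 := hC s h1 h2
  have h4 := poly_exp |s.im| (abs_nonneg _)
  rw [sq_abs] at h4
  have h5 : 0 < (1 + s.im ^ 2) ^ 3 := by positivity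
  rw [← div_eq_mul_inv, le_div_iff₀ h5]
  calc ‖mel w s‖ * (1 + s.im ^ 2) ^ 3 ≤ (|C| * Real.exp (-|s.im| ^ (1 / 2 : ℝ))) * (1 + s.im ^ 2) ^ 3 := by
        gcongr
        refine h3.trans ?_
        gcongr
        exact le_abs_self _
    _ = |C| * ((1 + s.im ^ 2) ^ 3 * Real.exp (-|s.im| ^ (1 / 2 : ℝ))) := by ring
    _ ≤ |C| * ((Nat.factorial 12 : ℝ) * Real.exp 1) := by gcongr
    _ ≤ _ := by linarith

theorem aL_LSS {s : ℂ} (hs : 1 < s.re) : LSeriesSummable (fun n => (aL n : ℂ)) s := by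
  have h1 : LSeriesSummable (fun n => ((ArithmeticFunction.vonMangoldt n : ℝ) : ℂ)) s :=
    ArithmeticFunction.LSeriesSummable_vonMangoldt hs
  have h2 : LSeriesSummable (fun _ => (1:ℂ)) s :=
    LSeriesSummable_of_bounded_of_one_lt_re (m := 1) (fun n _ => by simp) hs
  refine (LSeriesSummable_congr s (fun {n} hn => ?_)).1 (h1.sub h2)
  simp only [aL, if_neg hn, Pi.sub_apply]
  push_cast
  rfl

theorem aL_id {s : ℂ} (hs : 1 < s.re) :
    LSeries (fun n => (aL n : ℂ)) s = -(deriv FF s / FF s) - dslope FF 1 s := by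
  have hs1 : s ≠ 1 := by
    rintro rfl
    simp at hs
  have hs10 : s - 1 ≠ 0 := sub_ne_zero.2 hs1
  have hz : riemannZeta s ≠ 0 := riemannZeta_ne_zero_of_one_lt_re hs
  rw [aL_series s hs, dslope_of_ne _ hs1, slope_def_field, show FF 1 = 1 from ZU.J_g2b.FF_one]
  have hFs : FF s = (s - 1) * riemannZeta s := ZU.J_g2b.FF_ne hs1
  have hder : deriv FF s = riemannZeta s + (s - 1) * deriv riemannZeta s := by
    have he : FF =ᶠ[𝓝 s] fun v => (v - 1) * riemannZeta v := by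
      filter_upwards [isOpen_ne.mem_nhds hs1] with v hv
      exact ZU.J_g2b.FF_ne hv
    rw [he.deriv_eq]
    have h1 : HasDerivAt (fun v : ℂ => v - 1) 1 s := (hasDerivAt_id s).sub_const 1
    have h2 := (differentiableAt_riemannZeta hs1).hasDerivAt
    have h3 : HasDerivAt (fun v : ℂ => (v - 1) * riemannZeta v) (1 * riemannZeta s + (s - 1) * deriv riemannZeta s) s := h1.mul h2
    rw [h3.deriv]
    ring
  rw [hder, hFs]
  field_simp
  ring

/-- the sum as a contour integral on the line `3/2` -/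
theorem Ew_integral (hw : Weight w) (x : ℝ) (hx : 0 < x) :
    Integrable (fun y : ℝ => LSeries (fun n => (aL n : ℂ)) ⟨3 / 2, y⟩ * (mel w ⟨3 / 2, y⟩ * (x : ℂ) ^ (⟨3 / 2, y⟩ : ℂ))) ∧
    (Ew w x : ℂ) = (1 / (2 * Real.pi) : ℝ) * ∫ y : ℝ,
      LSeries (fun n => (aL n : ℂ)) ⟨3 / 2, y⟩ * (mel w ⟨3 / 2, y⟩ * (x : ℂ) ^ (⟨3 / 2, y⟩ : ℂ)) := by
  obtain ⟨C, hC, hp⟩ := hw.poly
  have hmk : ∀ y : ℝ, (((3 / 2 : ℝ) : ℂ) + (y : ℂ) * I) = (⟨3 / 2, y⟩ : ℂ) := by
    intro y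
    apply Complex.ext <;> simp
  have hdec : ∀ y : ℝ, ‖mel w ⟨3 / 2, y⟩‖ ≤ C * (1 + y ^ 2)⁻¹ := by
    intro y
    have h1 := hp ⟨3 / 2, y⟩ (by norm_num) (by norm_num)
    refine h1.trans ?_
    gcongr
    have h0 : 0 ≤ y ^ 2 := sq_nonneg y
    calc 1 + y ^ 2 = (1 + y ^ 2) ^ 1 := (pow_one _).symm
      _ ≤ (1 + y ^ 2) ^ 3 := pow_le_pow_right₀ (by linarith) (by norm_num)
  have hmc : Continuous (fun y : ℝ => mel w ⟨3 / 2, y⟩) := by
    rw [continuous_iff_continuousAt]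
    intro y
    have h1 : DifferentiableAt ℂ (mel w) (((3 / 2 : ℝ) : ℂ) + (y : ℂ) * I) := by
      rw [hmk]
      exact hw.diff (by norm_num) (by norm_num)
    have h2 : ContinuousAt (fun y : ℝ => mel w (((3 / 2 : ℝ) : ℂ) + (y : ℂ) * I)) y :=
      ContinuousAt.comp (f := fun y : ℝ => ((3 / 2 : ℝ) : ℂ) + (y : ℂ) * I) (g := mel w)
        h1.continuousAt (by fun_prop)
    simpa only [hmk] using h2
  have hmint : Integrable (fun y : ℝ => mel w ⟨3 / 2, y⟩) :=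
    (integrable_inv_one_add_sq.const_mul C).mono' hmc.aestronglyMeasurable (ae_of_all _ hdec)
  -- Mellin inversion
  have hinv : ∀ v : ℝ, 0 < v → (w v : ℂ) = (1 / (2 * Real.pi) : ℝ) *
      ∫ y : ℝ, (v : ℂ) ^ (-(⟨3 / 2, y⟩ : ℂ)) * mel w ⟨3 / 2, y⟩ := by
    intro v hv
    have h1 := mellinInv_mellin_eq (3 / 2) (fun y => (w y : ℂ)) hv
      (hw.conv (by norm_num) (by norm_num)) (by
        have : (fun y : ℝ => mellin (fun y => (w y : ℂ)) (((3 / 2 : ℝ) : ℂ) + (y : ℂ) * I)) =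
          fun y : ℝ => mel w ⟨3 / 2, y⟩ := by
          funext y; rw [hmk]; rfl
        unfold VerticalIntegrable
        rw [this]
        exact hmint) (by
        exact (Complex.continuous_ofReal.continuousAt).comp (hw.cont.continuousAt (Ioi_mem_nhds hv)))
    rw [← h1]
    unfold mellinInv
    rw [Complex.real_smul]
    congr 1
    congr 1
    funext y
    rw [hmk]
    rfl
  set f : ℕ → ℝ → ℂ := fun n y => LSeries.term (fun n => (aL n : ℂ)) ⟨3 / 2, y⟩ n *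
    (mel w ⟨3 / 2, y⟩ * (x : ℂ) ^ (⟨3 / 2, y⟩ : ℂ)) with hf
  have hre : ∀ y : ℝ, (⟨3 / 2, y⟩ : ℂ).re = 3 / 2 := fun y => rfl
  have hxn : ∀ y : ℝ, ‖(x : ℂ) ^ (⟨3 / 2, y⟩ : ℂ)‖ = x ^ (3 / 2 : ℝ) := by
    intro y
    rw [Complex.norm_cpow_eq_rpow_re_of_pos hx]
  have hxc : Continuous (fun y : ℝ => (x : ℂ) ^ (⟨3 / 2, y⟩ : ℂ)) := by
    have : (fun y : ℝ => (x : ℂ) ^ (⟨3 / 2, y⟩ : ℂ)) = fun y : ℝ => (x : ℂ) ^ (((3 / 2 : ℝ) : ℂ) + (y : ℂ) * I) := by
      funext y; rw [hmk]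
    rw [this]
    refine Continuous.const_cpow (by fun_prop) (Or.inl ?_)
    exact_mod_cast hx.ne'
  have htc : ∀ n : ℕ, Continuous (fun y : ℝ => LSeries.term (fun n => (aL n : ℂ)) ⟨3 / 2, y⟩ n) := by
    intro n
    rcases Nat.eq_zero_or_pos n with h0 | h0
    · rw [h0]; simp only [LSeries.term_zero]; exact continuous_const
    · have : (fun y : ℝ => LSeries.term (fun n => (aL n : ℂ)) ⟨3 / 2, y⟩ n) =
        fun y : ℝ => (aL n : ℂ) / (n : ℂ) ^ (((3 / 2 : ℝ) : ℂ) + (y : ℂ) * I) := by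
        funext y; rw [LSeries.term_of_ne_zero (by omega), hmk]
      rw [this]
      refine Continuous.div continuous_const (Continuous.const_cpow (by fun_prop) (Or.inl ?_)) ?_
      · exact_mod_cast (by omega : n ≠ 0)
      · intro y h
        rw [Complex.cpow_eq_zero_iff] at h
        exact absurd h.1 (by exact_mod_cast (by omega : n ≠ 0))
  have htn : ∀ n : ℕ, ∀ y : ℝ, ‖LSeries.term (fun n => (aL n : ℂ)) ⟨3 / 2, y⟩ n‖ =
      ‖LSeries.term (fun n => (aL n : ℂ)) ((3 / 2 : ℝ) : ℂ) n‖ := by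
    intro n y
    rw [LSeries.norm_term_eq, LSeries.norm_term_eq, hre, ofReal_re]
  have hfb : ∀ n : ℕ, ∀ y : ℝ, ‖f n y‖ = ‖LSeries.term (fun n => (aL n : ℂ)) ((3 / 2 : ℝ) : ℂ) n‖ *
      (‖mel w ⟨3 / 2, y⟩‖ * x ^ (3 / 2 : ℝ)) := by
    intro n y
    rw [hf]
    simp only []
    rw [norm_mul, norm_mul, hxn, htn]
  have hfi : ∀ n, Integrable (f n) := by
    intro n
    refine (((hmint.norm.mul_const (x ^ (3 / 2 : ℝ)))).const_mul
      ‖LSeries.term (fun n => (aL n : ℂ)) ((3 / 2 : ℝ) : ℂ) n‖).mono'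
      ((htc n).mul (hmc.mul hxc)).aestronglyMeasurable (ae_of_all _ fun y => ?_)
    rw [hfb]
  have hS : LSeriesSummable (fun n => (aL n : ℂ)) ((3 / 2 : ℝ) : ℂ) := aL_LSS (by simp; norm_num)
  have hfs : Summable fun n => ∫ y, ‖f n y‖ := by
    have : (fun n => ∫ y, ‖f n y‖) = fun n => ‖LSeries.term (fun n => (aL n : ℂ)) ((3 / 2 : ℝ) : ℂ) n‖ *
        ∫ y, (‖mel w ⟨3 / 2, y⟩‖ * x ^ (3 / 2 : ℝ)) := by
      funext n
      rw [← integral_const_mul]
      simp only [hfb]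
    rw [this]
    exact hS.norm.mul_right _
  have key := hasSum_integral_of_summable_integral_norm hfi hfs
  have hLs : ∀ y : ℝ, ∑' n, f n y = LSeries (fun n => (aL n : ℂ)) ⟨3 / 2, y⟩ *
      (mel w ⟨3 / 2, y⟩ * (x : ℂ) ^ (⟨3 / 2, y⟩ : ℂ)) := by
    intro y
    rw [hf]
    simp only []
    rw [tsum_mul_right]
    rfl
  simp only [hLs] at key
  constructor
  · have h1 : Integrable (fun y : ℝ => ∑' n, f n y) := by
      have hLb : ∀ y : ℝ, ‖LSeries (fun n => (aL n : ℂ)) ⟨3 / 2, y⟩‖ ≤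
          ∑' n, ‖LSeries.term (fun n => (aL n : ℂ)) ((3 / 2 : ℝ) : ℂ) n‖ := by
        intro y
        unfold LSeries
        refine (norm_tsum_le_tsum_norm ?_).trans (le_of_eq ?_)
        · simp only [htn]; exact hS.norm
        · exact tsum_congr fun n => htn n y
      have hmeas : AEStronglyMeasurable (fun y : ℝ => LSeries (fun n => (aL n : ℂ)) ⟨3 / 2, y⟩) volume := by
        have : Continuous (fun y : ℝ => LSeries (fun n => (aL n : ℂ)) ⟨3 / 2, y⟩) := by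
          unfold LSeries
          exact continuous_tsum htc hS.norm (fun n y => le_of_eq (htn n y))
        exact this.aestronglyMeasurable
      simp only [hLs]
      refine ((hmint.norm.mul_const (x ^ (3 / 2 : ℝ))).const_mul
        (∑' n, ‖LSeries.term (fun n => (aL n : ℂ)) ((3 / 2 : ℝ) : ℂ) n‖)).mono'
        (hmeas.mul (hmc.mul hxc).aestronglyMeasurable) (ae_of_all _ fun y => ?_)
      rw [norm_mul, norm_mul, hxn]
      exact mul_le_mul_of_nonneg_right (hLb y) (by positivity)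
    simpa only [hLs] using h1
  · rw [← key.tsum_eq]
    unfold Ew
    rw [← tsum_mul_left, Complex.ofReal_tsum]
    apply tsum_congr
    intro n
    rcases Nat.eq_zero_or_pos n with h0 | h0
    · rw [h0]
      simp only [hf, LSeries.term_zero, zero_mul, integral_zero, mul_zero]
      simp [aL]
    · have hnx : (0:ℝ) < n / x := div_pos (by exact_mod_cast h0) hx
      push_cast
      have h2 := hinv _ hnx
      have h3 : ((w ((n:ℝ) / x) : ℝ) : ℂ) = (w (n / x) : ℂ) := rfl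
      rw [h2]
      rw [← mul_assoc, mul_comm (aL n : ℂ), mul_assoc]
      congr 1
      · push_cast; ring
      rw [← integral_const_mul]
      congr 1
      funext y
      rw [hf]
      simp only []
      rw [LSeries.term_of_ne_zero (by omega)]
      have h4 : (((n:ℝ) / x : ℝ) : ℂ) ^ (-(⟨3 / 2, y⟩ : ℂ)) =
          (x : ℂ) ^ (⟨3 / 2, y⟩ : ℂ) / (n : ℂ) ^ (⟨3 / 2, y⟩ : ℂ) := by
        rw [Complex.ofReal_div, Complex.div_cpow_ofReal_nonneg (by positivity) hx.le, Complex.cpow_neg,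
          Complex.cpow_neg]
        simp only [Complex.ofReal_natCast]
        rw [div_inv_eq_mul, mul_comm]
        simp only [div_eq_mul_inv]
      rw [h4]
      ring

end Pool.Agent.Helper85.SM
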