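import Pool.Agent.Helper85.SM.ZData
import Pool.Graph.R_seed8.H370R2.Local

/-! good vertical lines and good heights for the logarithmic derivative of `FF = (s-1) zeta` -/

set_option autoImplicit false

open Complex Filter Topology Set MeasureTheory Metric H353

namespace Pool.Agent.Helper85.SM

theorem ld_local (y σ : ℝ) (h1 : 1 / 2 < σ) (h2 : σ ≤ 1) (δ : ℝ) (hδ : 0 < δ)
    (hd : ∀ ρ : ℂ, FF ρ = 0 → |ρ.im - y| ≤ 2 → δ ≤ ‖(⟨σ, y⟩ : ℂ) - ρ‖) :
    FF ⟨σ, y⟩ ≠ 0 ∧ ‖deriv FF ⟨σ, y⟩ / FF ⟨σ, y⟩‖ ≤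
      (12 * (1 + |y|)) / Real.log (1.9 / 1.7) / δ +
        2 * (12 * (1 + |y|) + (12 * (1 + |y|)) / Real.log (1.9 / 1.7) * Real.log (1.7 / (1.9 - 1.7)) + 1)
          * 1.6 / (1.7 - 1.6) / (1.6 - 1.5) := by
  have hy := abs_nonneg y
  set c : ℂ := ⟨2, y⟩ with hc
  set M : ℝ := 11 * (5 + |y|) ^ 2 with hM
  have hcn : ‖c‖ ≤ 2 + |y| := by
    refine (Complex.norm_le_abs_re_add_abs_im c).trans ?_
    simp [hc]
  have hlow : 1 / 2 ≤ ‖FF c‖ := FF_lower c (by simp [hc])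
  have hlow0 : 0 < ‖FF c‖ := by linarith
  have hb : ∀ z ∈ closedBall c 1.9, ‖FF z‖ ≤ M := by
    intro z hz
    rw [mem_closedBall, dist_eq_norm] at hz
    have h3 := (Complex.abs_re_le_norm (z - c)).trans hz
    have h4 : (1/10 : ℝ) ≤ z.re := by
      rw [sub_re, abs_le] at h3
      simp only [hc] at h3
      norm_num at h3 ⊢
      linarith [h3.1]
    have h5 : ‖z‖ ≤ 4 + |y| := by
      have := norm_add_le (z - c) c
      rw [sub_add_cancel] at this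
      norm_num at hz
      linarith
    refine (FF_bound (1/10) (by norm_num) z h4).trans ?_
    rw [hM]
    have h6 : (1 + ‖z‖) ^ 2 ≤ (5 + |y|) ^ 2 := by
      apply pow_le_pow_left₀ (by positivity)
      linarith
    norm_num
    linarith
  have hMf : ‖FF c‖ ≤ M := hb c (mem_closedBall_self (by norm_num))
  have hM1 : 1 ≤ M := by rw [hM]; nlinarith
  have hlog : Real.log (M / ‖FF c‖) ≤ 12 * (1 + |y|) := by
    have h7 : M / ‖FF c‖ ≤ 22 * (5 + |y|) ^ 2 := by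
      rw [div_le_iff₀ hlow0, hM]
      nlinarith [sq_nonneg (5 + |y|)]
    have h8 : Real.log (M / ‖FF c‖) ≤ Real.log (22 * (5 + |y|) ^ 2) :=
      Real.log_le_log (by positivity) h7
    have h9 : Real.log (22 * (5 + |y|) ^ 2) = Real.log 22 + 2 * Real.log (5 + |y|) := by
      rw [Real.log_mul (by norm_num) (by positivity), Real.log_pow]
      norm_num
    have h10 : Real.log (5 + |y|) ≤ 4 + |y| := by
      have := Real.log_le_sub_one_of_pos (show 0 < 5 + |y| by positivity)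
      linarith
    have h11 : Real.log 22 ≤ 4 := by
      rw [Real.log_le_iff_le_exp (by norm_num)]
      have h12 : (2.7 : ℝ) ≤ Real.exp 1 := by linarith [Real.exp_one_gt_d9]
      calc (22:ℝ) ≤ 2.7 ^ 4 := by norm_num
        _ ≤ (Real.exp 1) ^ 4 := by gcongr
        _ = Real.exp 4 := by rw [← Real.exp_nat_mul]; norm_num
    rw [h9] at h8
    linarith
  have hlog0 : 0 ≤ Real.log (M / ‖FF c‖) := Real.log_nonneg (by
    rw [le_div_iff₀ hlow0]; linarith)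
  have hFan : AnalyticOnNhd ℂ FF (closedBall c 1.9) := fun z _ => FF_anal z
  have hz : (⟨σ, y⟩ : ℂ) ∈ closedBall c 1.5 := by
    rw [mem_closedBall, dist_eq_norm]
    have e : (⟨σ, y⟩ : ℂ) - c = ((σ - 2 : ℝ) : ℂ) := by
      apply Complex.ext <;> simp [hc]
    rw [e, Complex.norm_real, Real.norm_eq_abs, abs_le]
    constructor <;> linarith
  have key := H370.Loc.landau (f := FF) (c := c) (r := 1.7) (r1 := 1.6) (r2 := 1.5) (R := 1.9) (M := M)
    (by norm_num) (by norm_num) (by norm_num) (by norm_num) (by norm_num) hM1 hMf hFan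
    (norm_pos_iff.1 hlow0) hb _ hz δ hδ (by
      intro ρ hρ h0
      apply hd ρ h0
      rw [mem_closedBall, dist_eq_norm] at hρ
      have h3 := (Complex.abs_im_le_norm (ρ - c)).trans hρ
      rw [sub_im] at h3
      simp only [hc] at h3
      norm_num at h3
      linarith)
  refine ⟨key.1, key.2.trans ?_⟩
  have hl1 : 0 < Real.log (1.9 / 1.7) := Real.log_pos (by norm_num)
  have hl2 : 0 < Real.log (1.7 / (1.9 - 1.7)) := Real.log_pos (by norm_num)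
  have hp1 : (0:ℝ) < 1.7 - 1.6 := by norm_num
  have hp2 : (0:ℝ) < 1.6 - 1.5 := by norm_num
  gcongr

/-- a vertical line with a polynomial bound for the logarithmic derivative -/
theorem good_line (σ1 σ2 : ℝ) (h1 : 1 / 2 < σ1) (h12 : σ1 < σ2) (h2 : σ2 ≤ 1) :
    ∃ σ : ℝ, σ1 < σ ∧ σ < σ2 ∧ ∃ C : ℝ, 0 < C ∧ ∀ y : ℝ, FF ⟨σ, y⟩ ≠ 0 ∧
      ‖deriv FF ⟨σ, y⟩ / FF ⟨σ, y⟩‖ ≤ C * (1 + |y|) ^ 2 := by
  set σ0 := (1 / 2 + σ1) / 2 with hσ0
  have h01 : 1 / 2 < σ0 := by linarith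
  have h02 : σ0 < σ1 := by linarith
  obtain ⟨c, hc0, hc1, σ, hσ1, hσ2, hσ⟩ := avoid (fun ρ : ZR σ0 => ρ.1.re)
    (fun ρ : ZR σ0 => (mu ρ.1 : ℝ) / |ρ.1.im|) (sum_all σ0 h01 (by linarith))
    (fun ρ => div_nonneg (Nat.cast_nonneg _) (abs_nonneg _)) σ1 σ2 h12
  refine ⟨σ, hσ1, hσ2, ?_⟩
  set κ := min c (σ1 - σ0) with hκ
  have hκ0 : 0 < κ := lt_min hc0 (by linarith)
  have hd : ∀ y : ℝ, ∀ ρ : ℂ, FF ρ = 0 → |ρ.im - y| ≤ 2 →
      κ / (2 + |y|) ≤ ‖(⟨σ, y⟩ : ℂ) - ρ‖ := by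
    intro y ρ h0 hρ
    have hy := abs_nonneg y
    have h3 : |ρ.re - σ| ≤ ‖(⟨σ, y⟩ : ℂ) - ρ‖ := by
      have := Complex.abs_re_le_norm ((⟨σ, y⟩ : ℂ) - ρ)
      rw [sub_re, abs_sub_comm] at this
      exact this
    refine le_trans ?_ h3
    by_cases hre : σ0 < ρ.re
    · have h4 := hσ ⟨ρ, h0, hre⟩
      simp only at h4
      have hne := FF_im_ne ρ h0 (by linarith)
      have him : 0 < |ρ.im| := abs_pos.2 hne
      have h5 : (1:ℝ) ≤ mu ρ := by exact_mod_cast mu_pos ρ h0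
      have h6 : |ρ.im| ≤ 2 + |y| := by
        have := abs_add_le (ρ.im - y) y
        rw [sub_add_cancel] at this
        linarith
      calc κ / (2 + |y|) ≤ c / (2 + |y|) := by
            gcongr
            exact min_le_left _ _
        _ ≤ c / |ρ.im| := by gcongr
        _ = c * (1 / |ρ.im|) := by ring
        _ ≤ c * ((mu ρ : ℝ) / |ρ.im|) := by gcongr
        _ ≤ _ := h4
    · have h5 : σ1 - σ0 ≤ |ρ.re - σ| := by
        rw [abs_sub_comm]
        refine le_trans ?_ (le_abs_self _)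
        linarith [not_lt.1 hre]
      calc κ / (2 + |y|) ≤ κ / 1 := by
            gcongr
            linarith
        _ = κ := div_one _
        _ ≤ σ1 - σ0 := min_le_right _ _
        _ ≤ _ := h5
  have hl1 : 0 < Real.log (1.9 / 1.7) := Real.log_pos (by norm_num)
  have hl2 : 0 < Real.log (1.7 / (1.9 - 1.7)) := Real.log_pos (by norm_num)
  set L1 := Real.log (1.9 / 1.7) with hL1
  set L2 := Real.log (1.7 / (1.9 - 1.7)) with hL2
  refine ⟨24 / L1 / κ + 2 * (12 + 12 / L1 * L2 + 1) * 1.6 / (1.7 - 1.6) / (1.6 - 1.5), by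
    have hp1 : (0:ℝ) < 1.7 - 1.6 := by norm_num
    have hp2 : (0:ℝ) < 1.6 - 1.5 := by norm_num
    positivity, ?_⟩
  intro y
  have hy := abs_nonneg y
  obtain ⟨k1, k2⟩ := ld_local y σ (by linarith) (by linarith) (κ / (2 + |y|)) (by positivity) (hd y)
  refine ⟨k1, k2.trans ?_⟩
  rw [← hL1, ← hL2]
  have e1 : (12 * (1 + |y|)) / L1 / (κ / (2 + |y|)) ≤ 24 / L1 / κ * (1 + |y|) ^ 2 := by
    rw [div_div_eq_mul_div]
    have : 12 * (1 + |y|) / L1 * (2 + |y|) / κ = 12 / L1 / κ * ((1 + |y|) * (2 + |y|)) := by ring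
    rw [this]
    have h8 : (1 + |y|) * (2 + |y|) ≤ 2 * (1 + |y|) ^ 2 := by nlinarith
    calc 12 / L1 / κ * ((1 + |y|) * (2 + |y|)) ≤ 12 / L1 / κ * (2 * (1 + |y|) ^ 2) := by gcongr
      _ = _ := by ring
  have hq : (1:ℝ) ≤ (1 + |y|) ^ 2 := by nlinarith
  have hq2 : 1 + |y| ≤ (1 + |y|) ^ 2 := by nlinarith
  have e2 : 2 * (12 * (1 + |y|) + (12 * (1 + |y|)) / L1 * L2 + 1) * 1.6 / (1.7 - 1.6) / (1.6 - 1.5) ≤
      2 * (12 + 12 / L1 * L2 + 1) * 1.6 / (1.7 - 1.6) / (1.6 - 1.5) * (1 + |y|) ^ 2 := by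
    have hp1 : (0:ℝ) < 1.7 - 1.6 := by norm_num
    have hp2 : (0:ℝ) < 1.6 - 1.5 := by norm_num
    have h9 : 12 * (1 + |y|) + (12 * (1 + |y|)) / L1 * L2 + 1 ≤ (12 + 12 / L1 * L2 + 1) * (1 + |y|) ^ 2 := by
      have h10 : 0 < 12 / L1 * L2 := by positivity
      have h11 : (12 * (1 + |y|)) / L1 * L2 = 12 / L1 * L2 * (1 + |y|) := by ring
      rw [h11]
      nlinarith
    calc _ ≤ 2 * ((12 + 12 / L1 * L2 + 1) * (1 + |y|) ^ 2) * 1.6 / (1.7 - 1.6) / (1.6 - 1.5) := by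
          gcongr
      _ = _ := by ring
  calc _ ≤ 24 / L1 / κ * (1 + |y|) ^ 2 +
        2 * (12 + 12 / L1 * L2 + 1) * 1.6 / (1.7 - 1.6) / (1.6 - 1.5) * (1 + |y|) ^ 2 := add_le_add e1 e2
    _ = _ := by ring

/-- symmetry of the logarithmic derivative -/
theorem ld_conj (s : ℂ) : ‖deriv FF (starRingEnd ℂ s) / FF (starRingEnd ℂ s)‖ =
    ‖deriv FF s / FF s‖ := by
  have e1 : (starRingEnd ℂ) ∘ FF ∘ (starRingEnd ℂ) = FF := by
    funext z
    simp only [Function.comp_apply, FF_conj]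
    simp
  have e2 : deriv FF (starRingEnd ℂ s) = starRingEnd ℂ (deriv FF s) := by
    have h := deriv_conj_conj (𝕜 := ℂ) (f := FF)
    rw [e1] at h
    have h2 := congrFun h (starRingEnd ℂ s)
    simpa using h2
  rw [e2, FF_conj, ← map_div₀]
  exact Complex.norm_conj _

theorem good_heights : ∃ C : ℝ, 0 < C ∧ ∀ T : ℝ, 3 ≤ T → ∃ U : ℝ, T ≤ U ∧ U ≤ T + 1 ∧
    ∀ x : ℝ, 1 / 2 < x → x ≤ 3 / 2 → (FF ⟨x, U⟩ ≠ 0 ∧ ‖deriv FF ⟨x, U⟩ / FF ⟨x, U⟩‖ ≤ C * (1 + U) ^ 2) ∧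
      (FF ⟨x, -U⟩ ≠ 0 ∧ ‖deriv FF ⟨x, -U⟩ / FF ⟨x, -U⟩‖ ≤ C * (1 + U) ^ 2) := by
  obtain ⟨C, hC, hg⟩ := H370.good_height H370.good_zeta
  refine ⟨C + 1, by positivity, fun T hT => ?_⟩
  obtain ⟨U, hU, hx⟩ := hg T hT
  refine ⟨U, hU.1, hU.2, fun x hx1 hx2 => ?_⟩
  obtain ⟨k1, k2⟩ := hx x ⟨by linarith, hx2⟩
  set s : ℂ := ⟨x, U⟩ with hs
  have hU3 : 3 ≤ U := hT.trans hU.1
  have hs1 : s ≠ 1 := by
    intro h
    have := congrArg Complex.im h
    simp [hs] at this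
    linarith
  have hs10 : s - 1 ≠ 0 := sub_ne_zero.2 hs1
  have hFs : FF s = (s - 1) * riemannZeta s := ZU.J_g2b.FF_ne hs1
  have hne : FF s ≠ 0 := by rw [hFs]; exact mul_ne_zero hs10 k1
  have hder : deriv FF s = riemannZeta s + (s - 1) * deriv riemannZeta s := by
    have he : FF =ᶠ[𝓝 s] fun v => (v - 1) * riemannZeta v := by
      filter_upwards [isOpen_ne.mem_nhds hs1] with v hv
      exact ZU.J_g2b.FF_ne hv
    rw [he.deriv_eq]
    have h1 : HasDerivAt (fun v : ℂ => v - 1) 1 s := (hasDerivAt_id s).sub_const 1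
    have h2 := (differentiableAt_riemannZeta hs1).hasDerivAt
    have h3 : HasDerivAt (fun v : ℂ => (v - 1) * riemannZeta v) (1 * riemannZeta s + (s - 1) * deriv riemannZeta s) s := h1.mul h2
    rw [h3.deriv]
    ring
  have hquot : deriv FF s / FF s = (s - 1)⁻¹ + deriv riemannZeta s / riemannZeta s := by
    rw [hder, hFs]
    field_simp
  have hn1 : 1 ≤ ‖s - 1‖ := by
    have := Complex.abs_im_le_norm (s - 1)
    simp only [sub_im, one_im, hs, sub_zero] at this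
    rw [abs_of_pos (by linarith)] at this
    linarith
  have hb : ‖deriv FF s / FF s‖ ≤ (C + 1) * (1 + U) ^ 2 := by
    rw [hquot]
    have h1 : ‖(s - 1)⁻¹‖ ≤ 1 := by
      rw [norm_inv]
      exact inv_le_one_of_one_le₀ hn1
    have h2 : (Real.log T) ^ 2 ≤ (1 + U) ^ 2 := by
      have h3 : Real.log T ≤ 1 + U := by
        have := Real.log_le_sub_one_of_pos (show 0 < T by linarith)
        linarith [hU.1]
      have h4 : 0 ≤ Real.log T := Real.log_nonneg (by linarith)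
      gcongr
    calc ‖(s - 1)⁻¹ + deriv riemannZeta s / riemannZeta s‖ ≤ 1 + C * (Real.log T) ^ 2 := by
          refine (norm_add_le _ _).trans ?_
          exact add_le_add h1 k2
      _ ≤ 1 + C * (1 + U) ^ 2 := by gcongr
      _ ≤ (C + 1) * (1 + U) ^ 2 := by nlinarith
  have hcs : (⟨x, -U⟩ : ℂ) = starRingEnd ℂ s := by
    apply Complex.ext <;> simp [hs]
  refine ⟨⟨hne, hb⟩, ?_, ?_⟩
  · rw [hcs, FF_conj]
    intro h
    exact hne ((map_eq_zero _).1 h)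
  · rw [hcs, ld_conj]
    exact hb

end Pool.Agent.Helper85.SM
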