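import Pool.Agent.Helper85.SM.QuasiV
import Pool.Agent.Helper85.SM.GamW

/-! sampling along geometric progressions -/

set_option autoImplicit false

open Complex Filter Topology Set MeasureTheory Metric H353 Asymptotics

namespace Pool.Agent.Helper85.SM

variable {w : ℝ → ℝ}

theorem cpow_geom {a b : ℝ} (ha : 0 < a) (hb : 0 < b) (k : ℕ) (s : ℂ) :
    ((b * a ^ k : ℝ) : ℂ) ^ s = (b : ℂ) ^ s * ((a : ℂ) ^ s) ^ k := by
  rw [Complex.ofReal_mul, Complex.mul_cpow_ofReal_nonneg hb.le (by positivity)]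
  congr 1
  induction k with
  | zero => simp
  | succ k ih =>
    rw [pow_succ, Complex.ofReal_mul, Complex.mul_cpow_ofReal_nonneg (by positivity) ha.le, ih, pow_succ]

theorem norm_cpow_pos {a : ℝ} (ha : 0 < a) (s : ℂ) : ‖(a : ℂ) ^ s‖ = a ^ s.re :=
  Complex.norm_cpow_eq_rpow_re_of_pos ha s

/-- the vanishing of the block sums -/
theorem vanish (hw : Weight w) {σ K θ : ℝ} (h1 : 1 / 2 < σ) (h2 : σ < θ) (h3 : θ < 1) (hK0 : 0 < K)
    (hK : ∀ x : ℝ, 0 < x →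
      ‖(Ew w x : ℂ) + ∑' ρ : ZR σ, (mu ρ.1 : ℂ) * (mel w ρ.1 * (x : ℂ) ^ ρ.1)‖ ≤ K * x ^ σ)
    {a b : ℝ} (ha : 1 < a) (hb : 0 < b)
    (hO : (fun k : ℕ => Ew w (b * a ^ k)) =O[atTop] (fun k : ℕ => (a ^ θ) ^ k))
    (p : ℂ) (hp : a ^ θ < ‖p‖) :
    ∑' ρ : ZR σ, Set.indicator {ρ : ZR σ | (a : ℂ) ^ ρ.1 = p} (Ac w σ b) ρ = 0 := by
  classical
  have ha0 : 0 < a := by linarith
  set r : ℝ := a ^ θ with hr
  have hr0 : 0 < r := Real.rpow_pos_of_pos ha0 _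
  obtain ⟨C, hC⟩ := (isBigO_nat_atTop_iff (fun k hk => by
    exact absurd hk (pow_ne_zero _ hr0.ne'))).1 hO
  have hmom : ∀ k, ‖mom (fun ρ : ZR σ => (a : ℂ) ^ ρ.1) (Ac w σ b) k‖ ≤ (|C| + K * b ^ σ) * r ^ k := by
    intro k
    have hx : 0 < b * a ^ k := by positivity
    have e1 : ∑' ρ : ZR σ, (mu ρ.1 : ℂ) * (mel w ρ.1 * ((b * a ^ k : ℝ) : ℂ) ^ ρ.1) =
        mom (fun ρ : ZR σ => (a : ℂ) ^ ρ.1) (Ac w σ b) k := by
      unfold mom
      apply tsum_congr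
      intro ρ
      rw [cpow_geom ha0 hb]
      unfold Ac
      ring
    have e2 := hK _ hx
    rw [e1] at e2
    have e3 := hC k
    rw [Real.norm_eq_abs, norm_pow, Real.norm_eq_abs, abs_of_pos hr0] at e3
    have e4 : (b * a ^ k) ^ σ ≤ b ^ σ * r ^ k := by
      rw [Real.mul_rpow hb.le (by positivity)]
      have e5 : (a ^ k) ^ σ = (a ^ σ) ^ k := by
        rw [← Real.rpow_natCast, ← Real.rpow_mul ha0.le, mul_comm, Real.rpow_mul ha0.le, Real.rpow_natCast]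
      rw [e5]
      have e6 : a ^ σ ≤ r := Real.rpow_le_rpow_of_exponent_le ha.le h2.le
      gcongr
    have e7 : ‖mom (fun ρ : ZR σ => (a : ℂ) ^ ρ.1) (Ac w σ b) k‖ ≤
        ‖(Ew w (b * a ^ k) : ℂ) + mom (fun ρ : ZR σ => (a : ℂ) ^ ρ.1) (Ac w σ b) k‖ +
          ‖(Ew w (b * a ^ k) : ℂ)‖ := by
      have := norm_sub_le ((Ew w (b * a ^ k) : ℂ) + mom (fun ρ : ZR σ => (a : ℂ) ^ ρ.1) (Ac w σ b) k)
        (Ew w (b * a ^ k) : ℂ)
      rwa [add_sub_cancel_left] at this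
    rw [Complex.norm_real, Real.norm_eq_abs] at e7
    calc _ ≤ _ := e7
      _ ≤ K * (b * a ^ k) ^ σ + C * r ^ k := add_le_add e2 e3
      _ ≤ K * (b ^ σ * r ^ k) + |C| * r ^ k := by
          gcongr
          exact le_abs_self _
      _ = _ := by ring
  have hz : ∀ ρ : ZR σ, ‖(a : ℂ) ^ ρ.1‖ ≤ a := by
    intro ρ
    rw [norm_cpow_pos ha0]
    calc a ^ ρ.1.re ≤ a ^ (1:ℝ) := Real.rpow_le_rpow_of_exponent_le ha.le (FF_re_lt ρ.2.1).le
      _ = a := Real.rpow_one a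
  exact borel_unique (z := fun ρ : ZR σ => (a : ℂ) ^ ρ.1) (A := Ac w σ b) (lam := lamc σ)
    (Ac_summable hw σ b hb h1 (by linarith)) (lamc_ge σ) (lamc_summable σ h1 (by linarith)) hz ha0.le
    (Fm σ) (quasi_zeta hw σ b hb h1 (by linarith)) hr0 hmom p hp

/-- the exceptional ratios: two distinct zeros are not separated by `a^ρ` -/
def Exc : Set ℝ :=
  {a : ℝ | 1 < a ∧ ∃ ρ ρ' : ℂ, riemannZeta ρ = 0 ∧ riemannZeta ρ' = 0 ∧ 1 / 2 < ρ.re ∧ 1 / 2 < ρ'.re ∧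
    ρ ≠ ρ' ∧ (a : ℂ) ^ ρ = (a : ℂ) ^ ρ'}

theorem zeta_zero_iff {ρ : ℂ} (h : 1 / 2 < ρ.re) : riemannZeta ρ = 0 ↔ FF ρ = 0 := by
  by_cases h1 : ρ = 1
  · rw [h1, show FF 1 = 1 from ZU.J_g2b.FF_one]
    constructor
    · intro h0
      exact absurd h0 riemannZeta_one_ne_zero
    · intro h0
      exact absurd h0 one_ne_zero
  · rw [show FF ρ = (ρ - 1) * riemannZeta ρ from ZU.J_g2b.FF_ne h1]
    rw [mul_eq_zero, sub_eq_zero]
    tauto

theorem Exc_countable : Exc.Countable := by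
  set P : Set ℂ := {ρ : ℂ | FF ρ = 0 ∧ 1 / 2 < ρ.re} with hP
  have hPc : P.Countable := by
    have := ZR_countable (1 / 2)
    exact Set.countable_coe_iff.1 this
  have hsub : Exc ⊆ (fun q : (ℂ × ℂ) × ℤ =>
      Real.exp ((2 * Real.pi * I * q.2 / (q.1.1 - q.1.2)).re)) '' ((P ×ˢ P) ×ˢ Set.univ) := by
    rintro a ⟨ha, ρ, ρ', h0, h0', h1, h1', hne, he⟩
    have ha0 : (0:ℝ) < a := by linarith
    have ha' : (a : ℂ) ≠ 0 := by exact_mod_cast ha0.ne'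
    rw [Complex.cpow_def_of_ne_zero ha', Complex.cpow_def_of_ne_zero ha', Complex.exp_eq_exp_iff_exists_int] at he
    obtain ⟨n, hn⟩ := he
    refine ⟨((ρ, ρ'), n), ⟨⟨⟨(zeta_zero_iff h1).1 h0, h1⟩, ⟨(zeta_zero_iff h1').1 h0', h1'⟩⟩, mem_univ _⟩, ?_⟩
    simp only
    have hsub : ρ - ρ' ≠ 0 := sub_ne_zero.2 hne
    have e : 2 * Real.pi * I * n / (ρ - ρ') = Complex.log a := by
      rw [div_eq_iff hsub]
      linear_combination -hn
    rw [e, ← Complex.ofReal_log ha0.le, Complex.ofReal_re, Real.exp_log ha0]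
  exact (((hPc.prod hPc).prod Set.countable_univ).image _).mono hsub

/-- **Direct part.** A polynomial bound along one geometric progression. -/
theorem direct (hw : Weight w) {a b θ : ℝ} (ha : 1 < a) (hb : 0 < b) (hθ : 1 / 2 ≤ θ) (haE : a ∉ Exc)
    (hO : ∀ ε : ℝ, 0 < ε → (fun k : ℕ => Ew w (b * a ^ k)) =O[atTop] (fun k : ℕ => (a ^ (θ + ε)) ^ k))
    (ρ : ℂ) (hρ : riemannZeta ρ = 0) (hre : θ < ρ.re) : mel w ρ = 0 := by
  have ha0 : 0 < a := by linarith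
  have hρ1 : FF ρ = 0 := (zeta_zero_iff (by linarith)).1 hρ
  have hlt := FF_re_lt hρ1
  set θ' := (θ + ρ.re) / 2 with hθ'
  obtain ⟨σ, e1, e2, K, hK0, hK⟩ := explicit_formula hw ((1 / 2 + θ') / 2) θ' (by linarith) (by linarith)
    (by linarith)
  have hO' := hO (θ' - θ) (by linarith)
  rw [show θ + (θ' - θ) = θ' by ring] at hO'
  have hσ1 : 1 / 2 < σ := by linarith
  have key := vanish hw hσ1 e2 (by linarith) hK0 hK ha hb hO' ((a : ℂ) ^ ρ) (by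
    rw [norm_cpow_pos ha0]
    exact Real.rpow_lt_rpow_of_exponent_lt ha (by linarith))
  set ρ0 : ZR σ := ⟨ρ, hρ1, by linarith⟩ with hρ0
  have hset : {τ : ZR σ | (a : ℂ) ^ τ.1 = (a : ℂ) ^ ρ} = {ρ0} := by
    ext τ
    rw [Set.mem_singleton_iff]
    constructor
    · intro h
      by_contra hne
      apply haE
      refine ⟨ha, τ.1, ρ, (zeta_zero_iff (by linarith [τ.2.2])).2 τ.2.1, hρ, by linarith [τ.2.2], by linarith, ?_, h⟩
      intro h4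
      exact hne (Subtype.ext h4)
    · rintro rfl
      rfl
  rw [hset, tsum_eq_single ρ0 (fun τ hτ => Set.indicator_of_notMem (by
    rw [Set.mem_singleton_iff]; exact hτ) _), Set.indicator_of_mem (Set.mem_singleton _)] at key
  unfold Ac at key
  have hmu : (mu ρ : ℂ) ≠ 0 := by
    have := mu_pos ρ hρ1
    exact_mod_cast (by omega : mu ρ ≠ 0)
  have hbρ : (b : ℂ) ^ ρ ≠ 0 := by
    rw [ne_eq, Complex.cpow_eq_zero_iff]
    intro h
    exact absurd h.1 (by exact_mod_cast hb.ne')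
  rcases mul_eq_zero.1 key with h | h
  · exact absurd h hmu
  · rcases mul_eq_zero.1 h with h | h
    · exact h
    · exact absurd h hbρ

/-- **Converse part.** -/
theorem converse (hw : Weight w) {θ : ℝ} (hθ : 1 / 2 ≤ θ)
    (hz : ∀ ρ : ℂ, riemannZeta ρ = 0 → θ < ρ.re → mel w ρ = 0) (ε : ℝ) (hε : 0 < ε) :
    ∃ K : ℝ, ∀ x : ℝ, 1 ≤ x → |Ew w x| ≤ K * x ^ (θ + ε) := by
  rcases le_or_gt 1 θ with h1 | h1
  · -- trivial range
    obtain ⟨σ, e1, e2, K, hK0, hK⟩ := explicit_formula hw (3 / 4) 1 (by norm_num) (by norm_num) le_rfl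
    refine ⟨K + ∑' ρ : ZR σ, (mu ρ.1 : ℝ) * ‖mel w ρ.1‖, fun x hx => ?_⟩
    have hx0 : 0 < x := by linarith
    have k1 := hK x hx0
    have hs := mel_summable hw σ (by linarith) e2
    have k2 : ‖∑' ρ : ZR σ, (mu ρ.1 : ℂ) * (mel w ρ.1 * (x : ℂ) ^ ρ.1)‖ ≤
        (∑' ρ : ZR σ, (mu ρ.1 : ℝ) * ‖mel w ρ.1‖) * x ^ (θ + ε) := by
      rw [← tsum_mul_right]
      apply tsum_of_norm_bounded (hs.mul_right _).hasSum
      intro ρ
      rw [norm_mul, norm_mul, Complex.norm_natCast, norm_cpow_pos hx0, mul_assoc]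
      have : x ^ ρ.1.re ≤ x ^ (θ + ε) :=
        Real.rpow_le_rpow_of_exponent_le hx (by linarith [FF_re_lt ρ.2.1])
      gcongr
    have k3 : x ^ σ ≤ x ^ (θ + ε) := Real.rpow_le_rpow_of_exponent_le hx (by linarith)
    have k4 : |Ew w x| = ‖(Ew w x : ℂ)‖ := by rw [Complex.norm_real, Real.norm_eq_abs]
    have k5 := norm_sub_le ((Ew w x : ℂ) + ∑' ρ : ZR σ, (mu ρ.1 : ℂ) * (mel w ρ.1 * (x : ℂ) ^ ρ.1))
      (∑' ρ : ZR σ, (mu ρ.1 : ℂ) * (mel w ρ.1 * (x : ℂ) ^ ρ.1))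
    rw [add_sub_cancel_right] at k5
    rw [k4]
    calc _ ≤ _ := k5
      _ ≤ K * x ^ σ + (∑' ρ : ZR σ, (mu ρ.1 : ℝ) * ‖mel w ρ.1‖) * x ^ (θ + ε) := add_le_add k1 k2
      _ ≤ K * x ^ (θ + ε) + (∑' ρ : ZR σ, (mu ρ.1 : ℝ) * ‖mel w ρ.1‖) * x ^ (θ + ε) := by gcongr
      _ = _ := by ring
  · set θ2 := min 1 (θ + ε) with hθ2
    have hθ2' : θ < θ2 := lt_min h1 (by linarith)
    obtain ⟨σ, e1, e2, K, hK0, hK⟩ := explicit_formula hw ((θ + θ2) / 2) θ2 (by linarith) (by linarith)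
      (min_le_left _ _)
    refine ⟨K, fun x hx => ?_⟩
    have hx0 : 0 < x := by linarith
    have k1 := hK x hx0
    have k2 : ∑' ρ : ZR σ, (mu ρ.1 : ℂ) * (mel w ρ.1 * (x : ℂ) ^ ρ.1) = 0 := by
      have : ∀ ρ : ZR σ, (mu ρ.1 : ℂ) * (mel w ρ.1 * (x : ℂ) ^ ρ.1) = 0 := by
        intro ρ
        have hlt : θ < ρ.1.re := by linarith [ρ.2.2]
        rw [hz ρ.1 ((zeta_zero_iff (by linarith)).2 ρ.2.1) hlt]
        ring
      simp only [this, tsum_zero]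
    rw [k2, add_zero, Complex.norm_real, Real.norm_eq_abs] at k1
    refine k1.trans ?_
    have k3 : x ^ σ ≤ x ^ (θ + ε) :=
      Real.rpow_le_rpow_of_exponent_le hx (by linarith [min_le_right 1 (θ + ε)])
    gcongr

end Pool.Agent.Helper85.SM
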