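import Pool.Agent.Helper85.SM.Main1

/-! sampling along geometric progressions: all ratios -/

set_option autoImplicit false

open Complex Filter Topology Set MeasureTheory Metric H353 Asymptotics

namespace Pool.Agent.Helper85.SM

/-- extraction of one coefficient from a block -/
theorem block_coeff {ι : Type} [Countable ι] {c : ι → ℂ} (hc : Summable (fun i => ‖c i‖)) {z : ι → ℂ}
    (hz0 : ∀ i, 0 ≤ (z i).re) (hz1 : ∀ i, (z i).re ≤ 1) (hinj : Function.Injective z) {L : ℝ}
    (hL : 0 < L) (i0 : ι) (S : Set ι) (hS : ∀ i, i ∈ S ↔ cexp (L * z i) = cexp (L * z i0))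
    (h0 : ∀ u : ℝ, 0 ≤ u → u ≤ L → ∑' i, S.indicator (fun i => c i * cexp (u * z i)) i = 0) : c i0 = 0 := by
  classical
  set f : ι → ℝ → ℂ := fun i u => S.indicator (fun i => c i * cexp (u * (z i - z i0))) i with hf
  have hfc : ∀ i, Continuous (f i) := by
    intro i
    by_cases hi : i ∈ S
    · have : f i = fun u : ℝ => c i * cexp (u * (z i - z i0)) := by
        funext u; rw [hf]; simp only; rw [Set.indicator_of_mem hi]
      rw [this]; fun_prop
    · have : f i = fun u : ℝ => 0 := by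
        funext u; rw [hf]; simp only; rw [Set.indicator_of_notMem hi]
      rw [this]; fun_prop
  have hfn : ∀ i, ∀ u ∈ Ioc 0 L, ‖f i u‖ ≤ ‖c i‖ * Real.exp L := by
    intro i u hu
    by_cases hi : i ∈ S
    · rw [hf]; simp only; rw [Set.indicator_of_mem hi, norm_mul, Complex.norm_exp]
      gcongr
      simp only [mul_re, ofReal_re, ofReal_im, zero_mul, sub_zero, sub_re]
      have e1 := hz0 i0
      have e2 := hz1 i
      have e3 : (z i).re - (z i0).re ≤ 1 := by linarith
      calc u * ((z i).re - (z i0).re) ≤ u * 1 := by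
            apply mul_le_mul_of_nonneg_left e3 hu.1.le
        _ ≤ L := by linarith [hu.2]
    · rw [hf]; simp only; rw [Set.indicator_of_notMem hi, norm_zero]; positivity
  have hint : ∀ i, Integrable (f i) (volume.restrict (Ioc 0 L)) := fun i =>
    ((hfc i).continuousOn.integrableOn_Icc (a := 0) (b := L)).mono_set Ioc_subset_Icc_self
  have hsum : Summable (fun i => ∫ u, ‖f i u‖ ∂(volume.restrict (Ioc 0 L))) := by
    refine Summable.of_nonneg_of_le (fun i => integral_nonneg fun _ => norm_nonneg _) (fun i => ?_)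
      (hc.mul_right (Real.exp L * L))
    calc ∫ u, ‖f i u‖ ∂(volume.restrict (Ioc 0 L)) ≤
          ∫ u, ‖c i‖ * Real.exp L ∂(volume.restrict (Ioc 0 L)) := by
            apply integral_mono_ae (hint i).norm (integrable_const _)
            exact (ae_restrict_mem measurableSet_Ioc).mono fun u hu => hfn i u hu
      _ = ‖c i‖ * (Real.exp L * L) := by
            rw [integral_const]
            simp only [measureReal_restrict_apply_univ, Real.volume_real_Ioc, sub_zero, smul_eq_mul]
            rw [max_eq_left hL.le]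
            ring
  have key := hasSum_integral_of_summable_integral_norm hint hsum
  have hzero : ∫ u, ∑' i, f i u ∂(volume.restrict (Ioc 0 L)) = 0 := by
    have : ∫ u, ∑' i, f i u ∂(volume.restrict (Ioc 0 L)) = ∫ u, (0:ℂ) ∂(volume.restrict (Ioc 0 L)) := by
      apply integral_congr_ae
      refine (ae_restrict_mem measurableSet_Ioc).mono fun u hu => ?_
      simp only
      have h1 := h0 u hu.1.le hu.2
      have h2 : ∑' i, f i u = (∑' i, S.indicator (fun i => c i * cexp (u * z i)) i) * cexp (-(u * z i0)) := by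
        rw [← tsum_mul_right]
        apply tsum_congr
        intro i
        rw [hf]
        simp only
        by_cases hi : i ∈ S
        · rw [Set.indicator_of_mem hi, Set.indicator_of_mem hi, mul_assoc, ← Complex.exp_add]
          congr 2; ring
        · rw [Set.indicator_of_notMem hi, Set.indicator_of_notMem hi, zero_mul]
      rw [h2, h1, zero_mul]
    rw [this, integral_zero]
  rw [hzero] at key
  have hterm : ∀ i, i ≠ i0 → ∫ u, f i u ∂(volume.restrict (Ioc 0 L)) = 0 := by
    intro i hi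
    by_cases hiS : i ∈ S
    · have h3 : z i - z i0 ≠ 0 := sub_ne_zero.2 (fun h => hi (hinj h))
      have h4 : ∫ u, f i u ∂(volume.restrict (Ioc 0 L)) = ∫ u in (0:ℝ)..L, c i * cexp ((z i - z i0) * u) := by
        rw [intervalIntegral.integral_of_le hL.le]
        congr 1
        funext u
        rw [hf]; simp only; rw [Set.indicator_of_mem hiS, mul_comm (u : ℂ)]
      rw [h4, intervalIntegral.integral_const_mul, integral_exp_mul_complex h3]
      have h5 : cexp ((z i - z i0) * (L : ℂ)) = 1 := by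
        have h6 := (hS i).1 hiS
        have h7 : (z i - z i0) * (L : ℂ) = L * z i - L * z i0 := by ring
        rw [h7, Complex.exp_sub, h6, div_self (Complex.exp_ne_zero _)]
      rw [h5]
      simp
    · have h4 : ∫ u, f i u ∂(volume.restrict (Ioc 0 L)) = ∫ u, (0:ℂ) ∂(volume.restrict (Ioc 0 L)) := by
        congr 1
        funext u
        rw [hf]; simp only; rw [Set.indicator_of_notMem hiS]
      rw [h4, integral_zero]
  have h8 := hasSum_single (f := fun i => ∫ u, f i u ∂(volume.restrict (Ioc 0 L))) i0 hterm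
  have h9 := key.unique h8
  have hi0 : i0 ∈ S := (hS i0).2 rfl
  have h10 : ∫ u, f i0 u ∂(volume.restrict (Ioc 0 L)) = L * c i0 := by
    have : ∀ u : ℝ, f i0 u = c i0 := by
      intro u
      rw [hf]; simp only; rw [Set.indicator_of_mem hi0, sub_self, mul_zero, Complex.exp_zero, mul_one]
    simp only [this]
    rw [integral_const]
    simp only [measureReal_restrict_apply_univ, Real.volume_real_Ioc, sub_zero]
    rw [max_eq_left hL.le, Complex.real_smul]
  rw [h10] at h9
  have hL' : (L : ℂ) ≠ 0 := by exact_mod_cast hL.ne'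
  rcases mul_eq_zero.1 h9.symm with h | h
  · exact absurd h hL'
  · exact h

/-- the block function of the exponential weight -/
noncomputable def Blk (σ : ℝ) (S : Set (ZR σ)) (u : ℂ) : ℂ :=
  ∑' ρ : ZR σ, S.indicator (fun ρ : ZR σ => ((mu ρ.1 : ℂ) * mel expW ρ.1) * cexp (u * ρ.1)) ρ

theorem Blk_diff {σ : ℝ} (h1 : 1 / 2 < σ) (h2 : σ < 1) (S : Set (ZR σ)) (R : ℝ) (hR : 0 < R) :
    DifferentiableOn ℂ (Blk σ S) {u : ℂ | |u.im| < c0 / 2 ∧ |u.re| < R} := by
  obtain ⟨C, hC, hg⟩ := gamma_decay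
  have hc0 := c0_pos
  unfold Blk
  apply differentiableOn_tsum_of_summable_norm
    (u := fun ρ : ZR σ => (C * Real.exp R * (2 / c0)) * ((mu ρ.1 : ℝ) / |ρ.1.im|))
    ((sum_all σ h1 h2).mul_left _)
  · intro ρ
    by_cases hρ : ρ ∈ S
    · have : (fun u : ℂ => S.indicator (fun ρ : ZR σ => ((mu ρ.1 : ℂ) * mel expW ρ.1) * cexp (u * ρ.1)) ρ) =
          fun u : ℂ => ((mu ρ.1 : ℂ) * mel expW ρ.1) * cexp (u * ρ.1) := by
        funext u; rw [Set.indicator_of_mem hρ]
      rw [this]; fun_prop
    · have : (fun u : ℂ => S.indicator (fun ρ : ZR σ => ((mu ρ.1 : ℂ) * mel expW ρ.1) * cexp (u * ρ.1)) ρ) =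
          fun u : ℂ => 0 := by
        funext u; rw [Set.indicator_of_notMem hρ]
      rw [this]; fun_prop
  · apply IsOpen.and
    · exact isOpen_lt (by fun_prop) continuous_const
    · exact isOpen_lt (by fun_prop) continuous_const
  · rintro ρ u ⟨hu1, hu2⟩
    have hre0 : 0 < ρ.1.re := by linarith [ρ.2.2]
    have hre1 := FF_re_lt ρ.2.1
    have hne := FF_im_ne ρ.1 ρ.2.1 (by linarith [ρ.2.2])
    have him : 0 < |ρ.1.im| := abs_pos.2 hne
    by_cases hρ : ρ ∈ S
    · rw [Set.indicator_of_mem hρ, norm_mul, norm_mul, Complex.norm_natCast, Complex.norm_exp,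
        mel_expW hre0]
      have e1 := hg ρ.1 (by linarith [ρ.2.2]) (by linarith)
      have e2 : (u * ρ.1).re ≤ R + c0 / 2 * |ρ.1.im| := by
        rw [mul_re]
        have e3 : u.re * ρ.1.re ≤ R := by
          calc u.re * ρ.1.re ≤ |u.re| * ρ.1.re := by gcongr; exact le_abs_self _
            _ ≤ R * 1 := by gcongr
            _ = R := mul_one R
        have e4 : -(u.im * ρ.1.im) ≤ c0 / 2 * |ρ.1.im| := by
          calc -(u.im * ρ.1.im) ≤ |u.im * ρ.1.im| := neg_le_abs _
            _ = |u.im| * |ρ.1.im| := abs_mul _ _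
            _ ≤ _ := by gcongr
        linarith
      have e5 : Real.exp (-(c0 * |ρ.1.im|)) * Real.exp ((u * ρ.1).re) ≤ Real.exp R * (2 / c0) * (|ρ.1.im|)⁻¹ := by
        calc Real.exp (-(c0 * |ρ.1.im|)) * Real.exp ((u * ρ.1).re) ≤
              Real.exp (-(c0 * |ρ.1.im|)) * Real.exp (R + c0 / 2 * |ρ.1.im|) := by gcongr
          _ = Real.exp R * Real.exp (-(c0 / 2 * |ρ.1.im|)) := by
              rw [← Real.exp_add, ← Real.exp_add]; congr 1; ring
          _ ≤ Real.exp R * ((2 / c0) * (|ρ.1.im|)⁻¹) := by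
              gcongr
              rw [Real.exp_neg]
              have e6 : c0 / 2 * |ρ.1.im| ≤ Real.exp (c0 / 2 * |ρ.1.im|) := by
                linarith [Real.add_one_le_exp (c0 / 2 * |ρ.1.im|)]
              have e7 : (2 / c0) * (|ρ.1.im|)⁻¹ = (c0 / 2 * |ρ.1.im|)⁻¹ := by
                rw [mul_inv, inv_div]
              rw [e7]
              exact inv_anti₀ (by positivity) e6
          _ = _ := by ring
      calc (mu ρ.1 : ℝ) * ‖Gamma ρ.1‖ * Real.exp ((u * ρ.1).re) ≤
            (mu ρ.1 : ℝ) * (C * Real.exp (-(c0 * |ρ.1.im|))) * Real.exp ((u * ρ.1).re) := by gcongr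
        _ = (mu ρ.1 : ℝ) * C * (Real.exp (-(c0 * |ρ.1.im|)) * Real.exp ((u * ρ.1).re)) := by ring
        _ ≤ (mu ρ.1 : ℝ) * C * (Real.exp R * (2 / c0) * (|ρ.1.im|)⁻¹) := by gcongr
        _ = _ := by rw [div_eq_mul_inv (mu ρ.1 : ℝ)]; ring
    · rw [Set.indicator_of_notMem hρ, norm_zero]
      positivity

/-- **All ratios.** For the exponential weight and every ratio `a > 1`, a polynomial bound along the
progressions `b a^k` for infinitely many `b ∈ [1, a]` excludes zeros. -/
theorem direct_all {a θ : ℝ} (ha : 1 < a) (hθ : 1 / 2 ≤ θ) (B : Set ℝ) (hB : B ⊆ Icc 1 a) (hBi : B.Infinite)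
    (hO : ∀ b ∈ B, ∀ ε : ℝ, 0 < ε →
      (fun k : ℕ => Ew expW (b * a ^ k)) =O[atTop] (fun k : ℕ => (a ^ (θ + ε)) ^ k))
    (ρ : ℂ) (hρ : riemannZeta ρ = 0) (hre : θ < ρ.re) : False := by
  have ha0 : 0 < a := by linarith
  have hρ1 : FF ρ = 0 := (zeta_zero_iff (by linarith)).1 hρ
  have hlt := FF_re_lt hρ1
  set θ' := (θ + ρ.re) / 2 with hθ'
  obtain ⟨σ, e1, e2, K, hK0, hK⟩ := explicit_formula expW_weight ((1 / 2 + θ') / 2) θ' (by linarith)
    (by linarith) (by linarith)
  have hσ1 : 1 / 2 < σ := by linarith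
  have hσ2 : σ < 1 := by linarith
  set ρ0 : ZR σ := ⟨ρ, hρ1, by linarith⟩ with hρ0
  set L := Real.log a with hL
  have hL0 : 0 < L := Real.log_pos ha
  have haL : ∀ s : ℂ, (a : ℂ) ^ s = cexp (L * s) := by
    intro s
    rw [Complex.cpow_def_of_ne_zero (by exact_mod_cast ha0.ne'), hL, Complex.ofReal_log ha0.le]
  set S : Set (ZR σ) := {τ : ZR σ | (a : ℂ) ^ τ.1 = (a : ℂ) ^ ρ} with hS
  -- the block function vanishes at `log b`
  have hzero : ∀ b ∈ B, Blk σ S (Real.log b) = 0 := by
    intro b hb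
    have hb1 := hB hb
    have hb0 : 0 < b := by linarith [hb1.1]
    have hO' := hO b hb (θ' - θ) (by linarith)
    rw [show θ + (θ' - θ) = θ' by ring] at hO'
    have key := vanish expW_weight hσ1 e2 (by linarith) hK0 hK ha hb0 hO' ((a : ℂ) ^ ρ) (by
      rw [norm_cpow_pos ha0]
      exact Real.rpow_lt_rpow_of_exponent_lt ha (by linarith))
    rw [← key]
    unfold Blk
    apply tsum_congr
    intro τ
    by_cases hτ : τ ∈ S
    · rw [Set.indicator_of_mem hτ, Set.indicator_of_mem hτ]
      unfold Ac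
      rw [Complex.cpow_def_of_ne_zero (by exact_mod_cast hb0.ne'), Complex.ofReal_log hb0.le]
      ring
    · rw [Set.indicator_of_notMem hτ, Set.indicator_of_notMem hτ]
  -- analyticity
  set U : Set ℂ := {u : ℂ | |u.im| < c0 / 2 ∧ |u.re| < L + 1} with hU
  have hUo : IsOpen U := by
    apply IsOpen.and
    · exact isOpen_lt (by fun_prop) continuous_const
    · exact isOpen_lt (by fun_prop) continuous_const
  have hUc : IsPreconnected U := by
    have h3 : U = (Complex.imLm ⁻¹' (Ioo (-(c0/2)) (c0/2))) ∩ (Complex.reLm ⁻¹' (Ioo (-(L+1)) (L+1))) := by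
      ext u
      simp only [hU, Set.mem_ofPred_eq, Set.mem_inter_iff, Set.mem_preimage, Set.mem_Ioo, abs_lt]
      rfl
    rw [h3]
    exact (((convex_Ioo _ _).linear_preimage Complex.imLm).inter
      ((convex_Ioo _ _).linear_preimage Complex.reLm)).isPreconnected
  have hd := Blk_diff hσ1 hσ2 S (L + 1) (by linarith)
  have han : AnalyticOnNhd ℂ (Blk σ S) U := hd.analyticOnNhd hUo
  -- accumulation
  set B' : Set ℂ := (fun b : ℝ => ((Real.log b : ℝ) : ℂ)) '' B with hB'
  have hinj : Set.InjOn (fun b : ℝ => ((Real.log b : ℝ) : ℂ)) B := by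
    intro b hb c hc h
    have hb1 := hB hb
    have hc1 := hB hc
    have h4 : Real.log b = Real.log c := Complex.ofReal_injective h
    exact Real.log_injOn_pos (show 0 < b by linarith [hb1.1]) (show 0 < c by linarith [hc1.1]) h4
  have hBinf : B'.Infinite := hBi.image hinj
  set Kc : Set ℂ := (fun t : ℝ => (t : ℂ)) '' Icc 0 L with hKc
  have hKcomp : IsCompact Kc := isCompact_Icc.image Complex.continuous_ofReal
  have hBK : B' ⊆ Kc := by
    rintro _ ⟨b, hb, rfl⟩
    have hb1 := hB hb
    exact ⟨Real.log b, ⟨Real.log_nonneg hb1.1, Real.log_le_log (by linarith [hb1.1]) hb1.2⟩, rfl⟩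
  obtain ⟨z0, hz0, hacc⟩ := hBinf.exists_accPt_of_subset_isCompact hKcomp hBK
  rw [accPt_iff_frequently_nhdsNE] at hacc
  have hKU : Kc ⊆ U := by
    rintro _ ⟨t, ht, rfl⟩
    refine ⟨?_, ?_⟩
    · simp only [ofReal_im, abs_zero]
      linarith [c0_pos]
    · simp only [ofReal_re]
      rw [abs_of_nonneg ht.1]
      linarith [ht.2]
  have hfreq : ∃ᶠ z in 𝓝[≠] z0, Blk σ S z = 0 := by
    refine hacc.mono ?_
    rintro _ ⟨b, hb, rfl⟩
    exact hzero b hb
  have hall := han.eqOn_zero_of_preconnected_of_frequently_eq_zero hUc (hKU hz0) hfreq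
  -- extraction
  have hc : Summable (fun τ : ZR σ => ‖(mu τ.1 : ℂ) * mel expW τ.1‖) := by
    refine (mel_summable expW_weight σ hσ1 hσ2).congr (fun τ => ?_)
    rw [norm_mul, Complex.norm_natCast]
  have h0 := block_coeff (c := fun τ : ZR σ => (mu τ.1 : ℂ) * mel expW τ.1) hc (z := fun τ : ZR σ => τ.1)
    (fun τ => by linarith [τ.2.2]) (fun τ => (FF_re_lt τ.2.1).le) Subtype.val_injective hL0 ρ0 S (by
      intro τ
      rw [hS, Set.mem_ofPred_eq, haL, haL]) (by
      intro u hu0 hu1
      have h5 := hall (hKU ⟨u, ⟨hu0, hu1⟩, rfl⟩)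
      exact h5)
  have hmu : (mu ρ : ℂ) ≠ 0 := by
    have := mu_pos ρ hρ1
    exact_mod_cast (by omega : mu ρ ≠ 0)
  rcases mul_eq_zero.1 h0 with h | h
  · exact hmu h
  · change mel expW ρ = 0 at h
    rw [mel_expW (by linarith)] at h
    exact Complex.Gamma_ne_zero_of_re_pos (by linarith) h

end Pool.Agent.Helper85.SM
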