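import Pool.Agent.Helper85.SM.Expl2
import Pool.Agent.Helper85.SM.Borel3

/-! the zeros of zeta to the right of an abscissa satisfy the quasianalyticity condition -/

set_option autoImplicit false

open Complex Filter Topology Set MeasureTheory Metric H353 Asymptotics

namespace Pool.Agent.Helper85.SM

variable {w : ℝ → ℝ}

/-- the coefficients -/
noncomputable def Ac (w : ℝ → ℝ) (σ b : ℝ) (ρ : ZR σ) : ℂ :=
  (mu ρ.1 : ℂ) * (mel w ρ.1 * (b : ℂ) ^ ρ.1)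

/-- the spacing parameters -/
noncomputable def lamc (σ : ℝ) (ρ : ZR σ) : ℝ := 1 + |ρ.1.im|

theorem lamc_ge (σ : ℝ) (ρ : ZR σ) : 1 ≤ lamc σ ρ := by
  unfold lamc; linarith [abs_nonneg ρ.1.im]

theorem lamc_summable (σ : ℝ) (h1 : 1 / 2 < σ) (h2 : σ < 1) : Summable (fun ρ => (lamc σ ρ)⁻¹) := by
  refine Summable.of_nonneg_of_le (fun ρ => inv_nonneg.2 (by linarith [lamc_ge σ ρ])) (fun ρ => ?_)
    (sum_all σ h1 h2)
  have hne := FF_im_ne ρ.1 ρ.2.1 (by linarith [ρ.2.2])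
  have him : 0 < |ρ.1.im| := abs_pos.2 hne
  have h5 : (1:ℝ) ≤ mu ρ.1 := by exact_mod_cast mu_pos ρ.1 ρ.2.1
  unfold lamc
  rw [div_eq_mul_inv]
  calc (1 + |ρ.1.im|)⁻¹ ≤ (|ρ.1.im|)⁻¹ := inv_anti₀ him (by linarith)
    _ = 1 * (|ρ.1.im|)⁻¹ := (one_mul _).symm
    _ ≤ _ := by gcongr

theorem rpow_le_one_add {b t : ℝ} (hb : 0 < b) (h0 : 0 ≤ t) (h1 : t ≤ 1) : b ^ t ≤ 1 + b := by
  rcases le_or_gt 1 b with h | h
  · calc b ^ t ≤ b ^ (1:ℝ) := Real.rpow_le_rpow_of_exponent_le h h1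
      _ = b := Real.rpow_one b
      _ ≤ _ := by linarith
  · calc b ^ t ≤ b ^ (0:ℝ) := Real.rpow_le_rpow_of_exponent_ge hb h.le h0
      _ = 1 := Real.rpow_zero b
      _ ≤ _ := by linarith

theorem Ac_norm_le (σ b : ℝ) (hb : 0 < b) (h1 : 1 / 2 < σ) (ρ : ZR σ) :
    ‖Ac w σ b ρ‖ ≤ (1 + b) * ((mu ρ.1 : ℝ) * ‖mel w ρ.1‖) := by
  unfold Ac
  rw [norm_mul, norm_mul, Complex.norm_natCast, Complex.norm_cpow_eq_rpow_re_of_pos hb]
  have h3 := rpow_le_one_add hb (by linarith [ρ.2.2] : 0 ≤ ρ.1.re) (FF_re_lt ρ.2.1).le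
  calc (mu ρ.1 : ℝ) * (‖mel w ρ.1‖ * b ^ ρ.1.re) ≤ (mu ρ.1 : ℝ) * (‖mel w ρ.1‖ * (1 + b)) := by gcongr
    _ = _ := by ring

theorem Ac_summable (hw : Weight w) (σ b : ℝ) (hb : 0 < b) (h1 : 1 / 2 < σ) (h2 : σ < 1) :
    Summable (fun ρ => ‖Ac w σ b ρ‖) :=
  Summable.of_nonneg_of_le (fun _ => norm_nonneg _) (fun ρ => Ac_norm_le σ b hb h1 ρ)
    ((mel_summable hw σ h1 h2).mul_left (1 + b))

theorem eps_bound (hw : Weight w) (σ b : ℝ) (hb : 0 < b) (h1 : 1 / 2 < σ) (h2 : σ < 1)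
    (β : ℝ) (hβ0 : 0 < β) (hβ : β < 1) :
    ∃ C : ℝ, 0 < C ∧ ∀ m : ℕ, eps (Ac w σ b) (Fm σ m) ≤ C * Real.exp (-((m : ℝ) ^ β / 2)) := by
  obtain ⟨Cw, hCw, hp⟩ := hw.poly
  obtain ⟨Cb0, hCb0⟩ := hw.decay β hβ0 hβ
  set Cb := |Cb0| + 1 with hCb
  have hCbpos : 0 < Cb := by positivity
  have hCb1 : ∀ s : ℂ, 1 / 2 ≤ s.re → s.re ≤ 3 / 2 → ‖mel w s‖ ≤ Cb * Real.exp (-|s.im| ^ β) := by
    intro s hs1 hs2
    refine (hCb0 s hs1 hs2).trans ?_
    gcongr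
    rw [hCb]
    linarith [le_abs_self Cb0]
  set Q := Real.sqrt (Cb * Cw) with hQ
  have hQ0 : 0 < Q := Real.sqrt_pos.2 (by positivity)
  set Z0 := ∑' ρ : ZR σ, (mu ρ.1 : ℝ) / |ρ.1.im| with hZ0
  have hZZ : 0 ≤ Z0 := tsum_nonneg fun ρ => div_nonneg (Nat.cast_nonneg _) (abs_nonneg _)
  refine ⟨(1 + b) * Q * Z0 + 1, by positivity, fun m => ?_⟩
  have hpt : ∀ ρ : ZR σ, Set.indicator (↑(Fm σ m) : Set (ZR σ))ᶜ (fun i => ‖Ac w σ b i‖) ρ ≤
      ((1 + b) * Q * Real.exp (-((m : ℝ) ^ β / 2))) * ((mu ρ.1 : ℝ) / |ρ.1.im|) := by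
    intro ρ
    have hne := FF_im_ne ρ.1 ρ.2.1 (by linarith [ρ.2.2])
    have him : 0 < |ρ.1.im| := abs_pos.2 hne
    by_cases hρ : ρ ∈ (↑(Fm σ m) : Set (ZR σ))ᶜ
    · rw [Set.indicator_of_mem hρ]
      have hm : (m : ℝ) < |ρ.1.im| := by
        rw [Set.mem_compl_iff, Finset.mem_coe, mem_Fm, not_le] at hρ
        exact hρ
      have e1 := hCb1 ρ.1 (by linarith [ρ.2.2]) (by linarith [FF_re_lt ρ.2.1])
      have e2 := hp ρ.1 (by linarith [ρ.2.2]) (by linarith [FF_re_lt ρ.2.1])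
      have e3 : |ρ.1.im| ^ 2 ≤ (1 + ρ.1.im ^ 2) ^ 3 := by
        rw [sq_abs]
        have h6 : (1:ℝ) ≤ 1 + ρ.1.im ^ 2 := by nlinarith [sq_nonneg ρ.1.im]
        calc ρ.1.im ^ 2 ≤ (1 + ρ.1.im ^ 2) ^ 1 := by rw [pow_one]; linarith
          _ ≤ _ := pow_le_pow_right₀ h6 (by norm_num)
      have e4 : ‖mel w ρ.1‖ ≤ Q * Real.exp (-(|ρ.1.im| ^ β / 2)) / |ρ.1.im| := by
        have h7 : ‖mel w ρ.1‖ ^ 2 ≤ (Q * Real.exp (-(|ρ.1.im| ^ β / 2)) / |ρ.1.im|) ^ 2 := by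
          have h8 : (Q * Real.exp (-(|ρ.1.im| ^ β / 2)) / |ρ.1.im|) ^ 2 =
              (Cb * Real.exp (-|ρ.1.im| ^ β)) * (Cw * (|ρ.1.im| ^ 2)⁻¹) := by
            rw [div_pow, mul_pow, hQ, Real.sq_sqrt (by positivity), ← Real.exp_nat_mul]
            have : ((2:ℕ) : ℝ) * -(|ρ.1.im| ^ β / 2) = -|ρ.1.im| ^ β := by push_cast; ring
            rw [this]
            field_simp
          rw [h8, pow_two]
          have h9 : ‖mel w ρ.1‖ ≤ Cw * (|ρ.1.im| ^ 2)⁻¹ := by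
            refine e2.trans ?_
            gcongr
          gcongr
        exact (pow_le_pow_iff_left₀ (norm_nonneg _) (by positivity) (by norm_num)).1 h7
      have e5 : Real.exp (-(|ρ.1.im| ^ β / 2)) ≤ Real.exp (-((m : ℝ) ^ β / 2)) := by
        apply Real.exp_le_exp.2
        have : (m : ℝ) ^ β ≤ |ρ.1.im| ^ β := Real.rpow_le_rpow (Nat.cast_nonneg m) hm.le hβ0.le
        linarith
      calc ‖Ac w σ b ρ‖ ≤ (1 + b) * ((mu ρ.1 : ℝ) * ‖mel w ρ.1‖) := Ac_norm_le σ b hb h1 ρ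
        _ ≤ (1 + b) * ((mu ρ.1 : ℝ) * (Q * Real.exp (-(|ρ.1.im| ^ β / 2)) / |ρ.1.im|)) := by gcongr
        _ ≤ (1 + b) * ((mu ρ.1 : ℝ) * (Q * Real.exp (-((m : ℝ) ^ β / 2)) / |ρ.1.im|)) := by gcongr
        _ = _ := by ring
    · rw [Set.indicator_of_notMem hρ]
      positivity
  have hs2 : Summable (Set.indicator (↑(Fm σ m) : Set (ZR σ))ᶜ (fun i => ‖Ac w σ b i‖)) :=
    (Ac_summable hw σ b hb h1 h2).indicator _
  unfold eps
  calc ∑' ρ, Set.indicator (↑(Fm σ m) : Set (ZR σ))ᶜ (fun i => ‖Ac w σ b i‖) ρ ≤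
        ∑' ρ : ZR σ, ((1 + b) * Q * Real.exp (-((m : ℝ) ^ β / 2))) * ((mu ρ.1 : ℝ) / |ρ.1.im|) :=
          hs2.tsum_le_tsum hpt ((sum_all σ h1 h2).mul_left _)
    _ = ((1 + b) * Q * Z0) * Real.exp (-((m : ℝ) ^ β / 2)) := by
        rw [tsum_mul_left, ← hZ0]; ring
    _ ≤ _ := by
        gcongr
        linarith

theorem quasi_zeta (hw : Weight w) (σ b : ℝ) (hb : 0 < b) (h1 : 1 / 2 < σ) (h2 : σ < 1) :
    Quasi (Ac w σ b) (lamc σ) (Fm σ) := by
  intro D τ hD hτ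
  obtain ⟨K, δ, hK, hδ, hδ1, hc⟩ := card_all σ h1 h2
  obtain ⟨C, hC, he⟩ := eps_bound hw σ b hb h1 h2 (1 - δ / 2) (by linarith) (by linarith)
  set ε := δ / 4 with hε
  have hε0 : 0 < ε := by positivity
  set K' := K * ((2 * D) ^ ε / ε) with hK'
  have hK'0 : 0 < K' := by positivity
  have hlim : Tendsto (fun m : ℕ => C ^ τ * Real.exp (K' - τ / 2 * (m : ℝ) ^ ε)) atTop (𝓝 0) := by
    have e1 : Tendsto (fun m : ℕ => (m : ℝ) ^ ε) atTop atTop :=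
      (tendsto_rpow_atTop hε0).comp tendsto_natCast_atTop_atTop
    have e2 : Tendsto (fun m : ℕ => K' - τ / 2 * (m : ℝ) ^ ε) atTop atBot := by
      have e3 := tendsto_neg_atTop_atBot.comp (e1.const_mul_atTop (by positivity : 0 < τ / 2))
      have e4 := tendsto_atBot_add_const_left atTop K' e3
      refine e4.congr (fun m => ?_)
      simp only [Function.comp_apply]
      ring
    have e5 := (Real.tendsto_exp_atBot.comp e2).const_mul (C ^ τ)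
    rw [mul_zero] at e5
    exact e5
  refine squeeze_zero' ?_ ?_ hlim
  · filter_upwards with m
    have hp : 0 ≤ ∏ i ∈ Fm σ m, lamc σ i := Finset.prod_nonneg fun i _ => by linarith [lamc_ge σ i]
    have := Real.rpow_nonneg (eps_nonneg (Ac w σ b) (Fm σ m)) τ
    positivity
  · have hev : ∀ᶠ m : ℕ in atTop, K' - τ / 2 * (m : ℝ) ^ ε ≤ 0 := by
      have e1 : Tendsto (fun m : ℕ => (m : ℝ) ^ ε) atTop atTop :=
        (tendsto_rpow_atTop hε0).comp tendsto_natCast_atTop_atTop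
      filter_upwards [e1.eventually_ge_atTop (K' / (τ / 2))] with m hm
      rw [div_le_iff₀ (by positivity)] at hm
      linarith
    filter_upwards [eventually_ge_atTop 1, hev] with m hm1 hm2
    have hm : (1:ℝ) ≤ m := by exact_mod_cast hm1
    have hm0 : (0:ℝ) < m := by linarith
    set N := (Fm σ m).card with hN
    -- the cardinality
    have hcard : (N : ℝ) ≤ K * (m : ℝ) ^ (1 - δ) := by
      have h3 := hc m hm ((Fm σ m).map (Function.Embedding.subtype _)) (by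
        intro ρ hρ
        rw [Finset.mem_map] at hρ
        obtain ⟨a, ha, rfl⟩ := hρ
        exact ⟨a.2.1, a.2.2, mem_Fm.1 ha⟩)
      rw [Finset.card_map] at h3
      exact h3
    -- the product
    have hprod : ∏ i ∈ Fm σ m, lamc σ i ≤ (1 + (m : ℝ)) ^ N := by
      rw [hN, ← Finset.prod_const]
      apply Finset.prod_le_prod
      · intro i _; linarith [lamc_ge σ i]
      · intro i hi
        unfold lamc
        linarith [mem_Fm.1 hi]
    have heps := he m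
    have heps0 := eps_nonneg (Ac w σ b) (Fm σ m)
    have hep : (eps (Ac w σ b) (Fm σ m)) ^ τ ≤ C ^ τ * Real.exp (-(τ / 2 * (m : ℝ) ^ (1 - δ / 2))) := by
      calc (eps (Ac w σ b) (Fm σ m)) ^ τ ≤ (C * Real.exp (-((m : ℝ) ^ (1 - δ / 2) / 2))) ^ τ :=
            Real.rpow_le_rpow heps0 heps hτ.le
        _ = _ := by
          rw [Real.mul_rpow hC.le (Real.exp_pos _).le, ← Real.exp_mul]
          congr 2
          ring
    have hD0 : 0 < D := by linarith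
    have hDm : D ^ N * (1 + (m : ℝ)) ^ N ≤ Real.exp (K' * (m : ℝ) ^ (1 - δ + ε)) := by
      have e0 : (1:ℝ) ≤ D * (1 + m) := by nlinarith
      have e1 : D ^ N * (1 + (m : ℝ)) ^ N = Real.exp (N * Real.log (D * (1 + m))) := by
        rw [← mul_pow, ← Real.rpow_natCast, Real.rpow_def_of_pos (by positivity), mul_comm]
      rw [e1]
      apply Real.exp_le_exp.2
      have e2 : Real.log (D * (1 + m)) ≤ (2 * D) ^ ε / ε * (m : ℝ) ^ ε := by
        calc Real.log (D * (1 + m)) ≤ (D * (1 + m)) ^ ε / ε :=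
              Real.log_le_rpow_div (by positivity) hε0
          _ ≤ (2 * D * m) ^ ε / ε := by
              gcongr ?_ ^ ε / ε
              nlinarith
          _ = _ := by rw [Real.mul_rpow (by positivity) hm0.le]; ring
      have e3 : 0 ≤ Real.log (D * (1 + m)) := Real.log_nonneg e0
      calc (N : ℝ) * Real.log (D * (1 + m)) ≤ (K * (m : ℝ) ^ (1 - δ)) * ((2 * D) ^ ε / ε * (m : ℝ) ^ ε) := by
            gcongr
        _ = K' * ((m : ℝ) ^ (1 - δ) * (m : ℝ) ^ ε) := by rw [hK']; ring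
        _ = _ := by rw [← Real.rpow_add hm0]
    have hprod0 : 0 ≤ ∏ i ∈ Fm σ m, lamc σ i := Finset.prod_nonneg fun i _ => by linarith [lamc_ge σ i]
    have hr0 := Real.rpow_nonneg heps0 τ
    calc D ^ N * (∏ i ∈ Fm σ m, lamc σ i) * (eps (Ac w σ b) (Fm σ m)) ^ τ ≤
          (D ^ N * (1 + (m : ℝ)) ^ N) * (C ^ τ * Real.exp (-(τ / 2 * (m : ℝ) ^ (1 - δ / 2)))) := by
            gcongr
      _ ≤ Real.exp (K' * (m : ℝ) ^ (1 - δ + ε)) * (C ^ τ * Real.exp (-(τ / 2 * (m : ℝ) ^ (1 - δ / 2)))) := by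
            gcongr
      _ = C ^ τ * Real.exp ((m : ℝ) ^ (1 - δ + ε) * (K' - τ / 2 * (m : ℝ) ^ ε)) := by
            rw [mul_left_comm, ← Real.exp_add]
            congr 2
            have : (m : ℝ) ^ (1 - δ / 2) = (m : ℝ) ^ (1 - δ + ε) * (m : ℝ) ^ ε := by
              rw [← Real.rpow_add hm0]
              congr 1
              rw [hε]; ring
            rw [this]
            ring
      _ ≤ C ^ τ * Real.exp (K' - τ / 2 * (m : ℝ) ^ ε) := by
            have h5 : (1:ℝ) ≤ (m : ℝ) ^ (1 - δ + ε) := Real.one_le_rpow hm (by linarith)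
            gcongr
            nlinarith

end Pool.Agent.Helper85.SM
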