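import Pool.Graph.R_seed8.H353R2.Z7
import Pool.Graph.R_seed8.H353R2.K2
import Pool.Graph.R_seed8.H370R2.DirGood
import Pool.Agent.Helper85.SM.Rad

/-! zeros of zeta to the right of an abscissa -/

set_option autoImplicit false

open Complex Filter Topology Set MeasureTheory Metric H353

namespace Pool.Agent.Helper85.SM

/-- zeros of `zeta` with real part larger than `σ` -/
abbrev ZR (σ : ℝ) : Type := {ρ : ℂ // FF ρ = 0 ∧ σ < ρ.re}

theorem FF_re_lt {ρ : ℂ} (h : FF ρ = 0) : ρ.re < 1 := ZU.J_g2b.FF_zero_re h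

theorem strip_finite (σ T : ℝ) : {ρ : ℂ | FF ρ = 0 ∧ σ < ρ.re ∧ |ρ.im| ≤ T}.Finite := by
  refine (zeros_finite (Icc σ 1 ×ℂ Icc (-T) T) (isCompact_Icc.reProdIm isCompact_Icc)).subset ?_
  rintro ρ ⟨h1, h2, h3⟩
  refine ⟨h1, ?_⟩
  rw [Complex.mem_reProdIm]
  exact ⟨⟨h2.le, (FF_re_lt h1).le⟩, abs_le.1 h3⟩

/-- the zeros of height at most `m` -/
noncomputable def Fm (σ : ℝ) (m : ℕ) : Finset (ZR σ) :=
  Set.Finite.toFinset (s := {ρ : ZR σ | |ρ.1.im| ≤ m})
    (Set.Finite.of_finite_image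
      ((strip_finite σ m).subset (by
        rintro _ ⟨ρ, hρ, rfl⟩
        exact ⟨ρ.2.1, ρ.2.2, hρ⟩) : ((fun ρ : ZR σ => ρ.1) '' {ρ : ZR σ | |ρ.1.im| ≤ m}).Finite)
      (Subtype.val_injective.injOn))

theorem mem_Fm {σ : ℝ} {m : ℕ} {ρ : ZR σ} : ρ ∈ Fm σ m ↔ |ρ.1.im| ≤ m := by
  unfold Fm
  rw [Set.Finite.mem_toFinset]
  rfl

instance ZR_countable (σ : ℝ) : Countable (ZR σ) := by
  have h : (Set.univ : Set (ZR σ)) = ⋃ m : ℕ, (↑(Fm σ m) : Set (ZR σ)) := by
    ext ρ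
    simp only [mem_univ, mem_iUnion, Finset.mem_coe, true_iff]
    obtain ⟨m, hm⟩ := exists_nat_ge |ρ.1.im|
    exact ⟨m, mem_Fm.2 hm⟩
  have h2 : (Set.univ : Set (ZR σ)).Countable := by
    rw [h]
    exact Set.countable_iUnion fun m => (Fm σ m).countable_toSet
  exact Set.countable_univ_iff.1 h2

theorem card_up (σ : ℝ) (h1 : 1 / 2 < σ) (h2 : σ < 1) : ∃ K δ : ℝ, 0 < K ∧ 0 < δ ∧ δ < 1 ∧
    ∀ T : ℝ, 1 ≤ T → ∀ S : Finset ℂ,
      (∀ ρ ∈ S, FF ρ = 0 ∧ σ < ρ.re ∧ 0 < ρ.im ∧ ρ.im ≤ T) → (S.card : ℝ) ≤ K * T ^ (1 - δ) := by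
  obtain ⟨C, δ0, hC, hδ0, hb⟩ := block σ h1 h2
  set δ := min δ0 (1 / 2) with hδ
  have hδpos : 0 < δ := lt_min hδ0 (by norm_num)
  have hδ1 : δ ≤ 1 / 2 := min_le_right _ _
  have hb' : ∀ T : ℝ, 3 ≤ T → ∀ S : Finset ℂ,
      (∀ ρ ∈ S, FF ρ = 0 ∧ σ ≤ ρ.re ∧ T ≤ ρ.im ∧ ρ.im ≤ 2 * T) → (S.card : ℝ) ≤ C * T ^ (1 - δ) := by
    intro T hT S hS
    have h3 := hb T hT S hS
    have h4 : (S.card : ℝ) ≤ ∑ ρ ∈ S, (mu ρ : ℝ) := by
      rw [Finset.card_eq_sum_ones]
      push_cast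
      apply Finset.sum_le_sum
      intro ρ hρ
      exact_mod_cast mu_pos ρ (hS ρ hρ).1
    refine (h4.trans h3).trans ?_
    gcongr
    · linarith
    · exact min_le_left _ _
  set q : ℝ := (2:ℝ) ^ (1 - δ) with hq
  have hq1 : 1 < q := Real.one_lt_rpow (by norm_num) (by linarith)
  set Z0 := (strip_finite σ 6).toFinset with hZ0
  set K := max ((Z0.card : ℝ) + 1) (C / (q - 1)) with hK
  have hK0 : 0 < K := lt_of_lt_of_le (by positivity) (le_max_left _ _)
  refine ⟨K, δ, hK0, hδpos, by linarith, ?_⟩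
  have main : ∀ n : ℕ, ∀ T : ℝ, 1 ≤ T → T ≤ 6 * 2 ^ n → ∀ S : Finset ℂ,
      (∀ ρ ∈ S, FF ρ = 0 ∧ σ < ρ.re ∧ 0 < ρ.im ∧ ρ.im ≤ T) → (S.card : ℝ) ≤ K * T ^ (1 - δ) := by
    intro n
    induction n with
    | zero =>
      intro T hT1 hT S hS
      have hsub : S ⊆ Z0 := by
        intro ρ hρ
        rw [hZ0, Set.Finite.mem_toFinset]
        obtain ⟨z1, z2, z3, z4⟩ := hS ρ hρ
        refine ⟨z1, z2, ?_⟩
        rw [abs_of_pos z3]
        linarith
      have h3 : (S.card : ℝ) ≤ Z0.card := by exact_mod_cast Finset.card_le_card hsub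
      have h4 : (1:ℝ) ≤ T ^ (1 - δ) := Real.one_le_rpow hT1 (by linarith)
      have h5 : (Z0.card : ℝ) + 1 ≤ K := le_max_left _ _
      nlinarith
    | succ n ih =>
      intro T hT1 hT S hS
      rcases le_or_gt T 6 with h6 | h6
      · refine ih T hT1 ?_ S hS
        have : (1:ℝ) ≤ 2 ^ n := one_le_pow₀ (by norm_num)
        linarith
      have hT0 : 0 < T := by linarith
      set S1 := S.filter (fun ρ => ρ.im ≤ T / 2) with hS1
      set S2 := S.filter (fun ρ => ¬ ρ.im ≤ T / 2) with hS2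
      have hcard : S.card = S1.card + S2.card := (Finset.card_filter_add_card_filter_not _).symm
      have e1 : (S1.card : ℝ) ≤ K * (T / 2) ^ (1 - δ) := by
        apply ih (T / 2) (by linarith)
        · rw [pow_succ] at hT; linarith
        · intro ρ hρ
          rw [hS1, Finset.mem_filter] at hρ
          obtain ⟨z1, z2, z3, _⟩ := hS ρ hρ.1
          exact ⟨z1, z2, z3, hρ.2⟩
      have e2 : (S2.card : ℝ) ≤ C * (T / 2) ^ (1 - δ) := by
        apply hb' (T / 2) (by linarith)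
        intro ρ hρ
        rw [hS2, Finset.mem_filter] at hρ
        obtain ⟨z1, z2, z3, z4⟩ := hS ρ hρ.1
        exact ⟨z1, z2.le, (not_le.1 hρ.2).le, by linarith⟩
      have e3 : T ^ (1 - δ) = q * (T / 2) ^ (1 - δ) := by
        rw [hq, ← Real.mul_rpow (by norm_num) (by positivity)]
        congr 1; ring
      have e4 : K + C ≤ K * q := by
        have h7 : C / (q - 1) ≤ K := le_max_right _ _
        rw [div_le_iff₀ (by linarith)] at h7
        linarith
      have e5 : 0 ≤ (T / 2) ^ (1 - δ) := by positivity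
      rw [hcard]
      push_cast
      rw [e3]
      nlinarith
  intro T hT S hS
  obtain ⟨n, hn⟩ := pow_unbounded_of_one_lt T (by norm_num : (1:ℝ) < 2)
  exact main n T hT (by have : (0:ℝ) < 2 ^ n := by positivity
                        linarith) S hS

theorem card_all (σ : ℝ) (h1 : 1 / 2 < σ) (h2 : σ < 1) : ∃ K δ : ℝ, 0 < K ∧ 0 < δ ∧ δ < 1 ∧
    ∀ T : ℝ, 1 ≤ T → ∀ S : Finset ℂ,
      (∀ ρ ∈ S, FF ρ = 0 ∧ σ < ρ.re ∧ |ρ.im| ≤ T) → (S.card : ℝ) ≤ K * T ^ (1 - δ) := by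
  classical
  obtain ⟨K, δ, hK, hδ, hδ1, hc⟩ := card_up σ h1 h2
  refine ⟨2 * K, δ, by positivity, hδ, hδ1, ?_⟩
  intro T hT S hS
  set S1 := S.filter (fun ρ => 0 < ρ.im) with hS1
  set S2 := S.filter (fun ρ => ¬ 0 < ρ.im) with hS2
  have hcard : S.card = S1.card + S2.card := (Finset.card_filter_add_card_filter_not _).symm
  have e1 : (S1.card : ℝ) ≤ K * T ^ (1 - δ) := by
    apply hc T hT
    intro ρ hρ
    rw [hS1, Finset.mem_filter] at hρ
    obtain ⟨z1, z2, z3⟩ := hS ρ hρ.1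
    exact ⟨z1, z2, hρ.2, (le_abs_self _).trans z3⟩
  have e2 : (S2.card : ℝ) ≤ K * T ^ (1 - δ) := by
    have h3 : (S2.image (starRingEnd ℂ)).card = S2.card :=
      Finset.card_image_of_injective _ (starRingEnd ℂ).injective
    rw [← h3]
    apply hc T hT
    intro ρ hρ
    rw [Finset.mem_image] at hρ
    obtain ⟨τ, hτ, rfl⟩ := hρ
    rw [hS2, Finset.mem_filter] at hτ
    obtain ⟨z1, z2, z3⟩ := hS τ hτ.1
    have hne := FF_im_ne τ z1 (by linarith)
    have hneg : τ.im < 0 := lt_of_le_of_ne (not_lt.1 hτ.2) hne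
    refine ⟨by rw [FF_conj, z1, map_zero], by rw [conj_re]; exact z2, ?_, ?_⟩
    · rw [conj_im]; linarith
    · rw [conj_im]
      exact (neg_le_abs _).trans z3
  rw [hcard]
  push_cast
  linarith

theorem sum_all (σ : ℝ) (h1 : 1 / 2 < σ) (h2 : σ < 1) :
    Summable (fun ρ : ZR σ => (mu ρ.1 : ℝ) / |ρ.1.im|) := by
  have h3 := zero_sum σ h1 h2
  set U : Set ℂ := {ρ : ℂ | FF ρ = 0 ∧ σ ≤ ρ.re ∧ 0 < ρ.im} with hU
  set g : ℂ → ℝ := fun ρ => (mu ρ : ℝ) / |ρ.im| with hg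
  have h4 : Summable (U.indicator g) := by
    rw [← summable_subtype_iff_indicator]
    refine h3.congr ?_
    intro ρ
    simp only [hg, Function.comp_apply]
    rw [abs_of_pos ρ.2.2.2]
  have h5 : Summable ((U.indicator g) ∘ (starRingEnd ℂ)) := by
    have e : ((U.indicator g) ∘ (starRingEnd ℂ)) = (U.indicator g) ∘ (starRingAut (R := ℂ)).toEquiv := by
      rfl
    rw [e]
    exact (Equiv.summable_iff _).2 h4
  have h6 := h4.add h5
  set V : Set ℂ := {ρ : ℂ | FF ρ = 0 ∧ σ < ρ.re} with hV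
  have h7 : Summable (V.indicator g) := by
    refine Summable.of_nonneg_of_le ?_ ?_ h6
    · intro ρ
      apply Set.indicator_nonneg
      intro ρ _
      exact div_nonneg (Nat.cast_nonneg _) (abs_nonneg _)
    · intro ρ
      have hn : ∀ τ : ℂ, 0 ≤ U.indicator g τ := by
        intro τ
        apply Set.indicator_nonneg
        intro ρ _
        exact div_nonneg (Nat.cast_nonneg _) (abs_nonneg _)
      by_cases hρ : ρ ∈ V
      · rw [Set.indicator_of_mem hρ]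
        have hne := FF_im_ne ρ hρ.1 (by linarith [hρ.2])
        rcases lt_or_gt_of_ne hne with h | h
        · have hc : (starRingEnd ℂ) ρ ∈ U := by
            refine ⟨by rw [FF_conj, hρ.1, map_zero], ?_, ?_⟩
            · rw [conj_re]; exact hρ.2.le
            · rw [conj_im]; linarith
          have e1 : ((U.indicator g) ∘ (starRingEnd ℂ)) ρ = g ρ := by
            rw [Function.comp_apply, Set.indicator_of_mem hc]
            simp only [hg]
            rw [mu_conj, conj_im, abs_neg]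
          rw [e1]
          linarith [hn ρ]
        · have hc : ρ ∈ U := ⟨hρ.1, hρ.2.le, h⟩
          rw [Set.indicator_of_mem hc]
          have := hn ((starRingEnd ℂ) ρ)
          change g ρ ≤ g ρ + (U.indicator g) ((starRingEnd ℂ) ρ)
          linarith
      · rw [Set.indicator_of_notMem hρ]
        exact add_nonneg (hn _) (hn _)
  rw [← summable_subtype_iff_indicator] at h7
  exact h7

end Pool.Agent.Helper85.SM
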